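import Pool.Agent.Lib.MP_60829e_nt.HE.Main

/-! # The theorem for polynomials over the complex numbers with algebraic coefficients -/

open MvPolynomial

namespace MP60829e.HE

open MP60829e.ST (Qa Lsp Lt)
open MP60829e.HD

theorem exists_over {σ : Type} {P : MvPolynomial σ ℂ} (hP : ∀ a, IsAlgebraic ℚ (coeff a P)) :
    ∃ P' : MvPolynomial σ Qa, P'.support ⊆ P.support ∧ map (algebraMap Qa ℂ) P' = P := by
  classical
  have hc : ∀ a, coeff a (∑ a ∈ P.support,
      monomial a (⟨coeff a P, mem_algebraicClosure_iff.2 (hP a)⟩ : Qa)) =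
        ⟨coeff a P, mem_algebraicClosure_iff.2 (hP a)⟩ := by
    intro a
    rw [coeff_sum]
    simp only [coeff_monomial]
    rw [Finset.sum_ite_eq' _ a]
    by_cases h : a ∈ P.support
    · rw [if_pos h]
    · rw [if_neg h]
      exact (Subtype.ext (notMem_support_iff.1 h)).symm
  refine ⟨∑ a ∈ P.support, monomial a (⟨coeff a P, mem_algebraicClosure_iff.2 (hP a)⟩ : Qa),
    fun a ha => ?_, ?_⟩
  · rw [mem_support_iff, hc] at ha
    rw [mem_support_iff]
    intro h
    exact ha (Subtype.ext h)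
  · refine MvPolynomial.ext _ _ fun a => ?_
    rw [coeff_map, hc]
    rfl

/-- Let the rational rows `x b`, with `j b` entries, avoid a hypersurface `H b` which depends on the
previous rows, and let `u b = ∑ t, x b t * lam t`. Let `P = q + g (W_1, …, W_d)` be a polynomial
over the algebraic numbers, where the monomials of `q` of degree at least `2` are in `M`, where `g`
is a polynomial of degree at most `d` in `d` variables and the `W_i` are linear forms in the
variables `X_b` with `b0 d ≤ b`. If the value of `P` at the `u b` is in the space spanned over the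
algebraic numbers by `1` and all the logarithms of algebraic numbers, then the degree of `P` is at
most `1`. -/
def GenericPlus (lam : ℕ → ℂ) (M : Set (ℕ →₀ ℕ)) (j b0 : ℕ → ℕ) : Prop :=
  ∃ H : (b : ℕ) → (Fin b → ℕ → ℚ) → MvPolynomial (Fin (j b)) ℚ, (∀ b y, H b y ≠ 0) ∧
    ∀ x : ℕ → ℕ → ℚ, (∀ b, eval (fun t : Fin (j b) => x b t) (H b fun i => x i) ≠ 0) →
      ∀ (q : MvPolynomial ℕ ℂ) (d : ℕ) (g : MvPolynomial (Fin d) ℂ) (w : Fin d → ℕ →₀ ℂ),
        (∀ a, IsAlgebraic ℚ (coeff a q)) → (∀ a, IsAlgebraic ℚ (coeff a g)) →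
        (∀ i b, IsAlgebraic ℚ (w i b)) → (∀ a ∈ q.support, 2 ≤ a.degree → a ∈ M) →
        g.totalDegree ≤ d → (∀ i, ∀ b ∈ (w i).support, b0 d ≤ b) →
        eval (fun b => ∑ t : Fin (j b), (x b t : ℂ) * lam t)
          (q + bind₁ (fun i => (w i).sum fun b c => C c * X b) g) ∈
            Submodule.span (algebraicClosure ℚ ℂ)
              ({1} ∪ {z : ℂ | IsAlgebraic ℚ (Complex.exp z)}) →
        (q + bind₁ (fun i => (w i).sum fun b c => C c * X b) g).totalDegree ≤ 1

theorem genericPlus_of {lam : ℕ → ℂ} {M : Set (ℕ →₀ ℕ)} {j b0 : ℕ → ℕ} (h : Gen lam M j b0) :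
    GenericPlus lam M j b0 := by
  classical
  obtain ⟨H, hH0, hH⟩ := h
  refine ⟨H, hH0, fun x hx q d g w hqa hga hwa hq hg hw hP => ?_⟩
  obtain ⟨q', hq1, rfl⟩ := exists_over hqa
  obtain ⟨g', hg1, rfl⟩ := exists_over hga
  obtain ⟨w', hw'⟩ : ∃ w' : Fin d → ℕ →₀ Qa, w' = fun i => Finsupp.onFinset (w i).support
      (fun b => ⟨w i b, mem_algebraicClosure_iff.2 (hwa i b)⟩) (fun b hb => by
        rw [Finsupp.mem_support_iff]
        intro h0
        exact hb (Subtype.ext h0)) := ⟨_, rfl⟩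
  have hw1 : ∀ i b, ((w' i b : Qa) : ℂ) = w i b := fun i b => by rw [hw']; rfl
  have hw2 : ∀ i, (w' i).support = (w i).support := by
    intro i
    ext b
    rw [Finsupp.mem_support_iff, Finsupp.mem_support_iff, ← hw1]
    exact not_congr ⟨fun h0 => by rw [h0]; rfl, fun h0 => Subtype.ext h0⟩
  have hmap : map (algebraMap Qa ℂ)
      (q' + aeval (fun i => (w' i).sum fun b c => C c * X b) g') =
        map (algebraMap Qa ℂ) q' +
          bind₁ (fun i => (w i).sum fun b c => C c * X b) (map (algebraMap Qa ℂ) g') := by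
    rw [map_add]
    congr 1
    have h1 : (fun i => (w i).sum fun b c => (C c * X b : MvPolynomial ℕ ℂ)) =
        fun i => map (algebraMap Qa ℂ) ((w' i).sum fun b c => C c * X b) := by
      funext i
      rw [Finsupp.sum, Finsupp.sum, map_sum, hw2]
      refine Finset.sum_congr rfl fun b _ => ?_
      rw [map_mul, map_C, map_X, ← hw1]
      rfl
    rw [h1]
    exact map_bind₁ (algebraMap Qa ℂ) (fun i => (w' i).sum fun b c => C c * X b) g'
  rw [← hmap] at hP ⊢
  rw [eval_map] at hP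
  refine (Finset.sup_mono (support_map_subset _ _)).trans ?_
  refine hH x hx q' d g' w' (fun a ha h2 => ?_) ?_ (fun i b hb => ?_) hP
  · refine hq a ?_ h2
    rw [mem_support_iff] at ha ⊢
    rw [coeff_map]
    intro h
    exact ha ((algebraMap Qa ℂ).injective (h.trans (map_zero _).symm))
  · exact (Finset.sup_mono hg1).trans hg
  · rw [hw2] at hb
    exact hw i b hb

/-- The number of elements of `M` of degree at least `k` with the largest variable `b` is at most
`m b`. -/
def Few (M : Set (ℕ →₀ ℕ)) (k : ℕ) (m : ℕ → ℕ) : Prop :=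
  ∀ b, {a | a ∈ M ∧ k ≤ a.degree ∧ b ∈ a.support ∧ ∀ i ∈ a.support, i ≤ b}.ncard ≤ m b

theorem clause {M : Set (ℕ →₀ ℕ)} (hM2 : ∀ a ∈ M, 2 ≤ a.degree)
    (hM : ∀ a ∈ M, ∀ c, c ≤ a → 2 ≤ c.degree → c ∈ M)
    (hfin : ∀ b, {a | a ∈ M ∧ b ∈ a.support ∧ ∀ i ∈ a.support, i ≤ b}.Finite) {m j : ℕ → ℕ}
    (h : (Monotone m ∧ Few M 3 m ∧ (∀ b, 2 * b + 5 + 2 * m b ≤ j b) ∧
        Filter.Tendsto (fun b => j b - (2 * b + 2 * m b)) Filter.atTop Filter.atTop) ∨
      (Few M 2 m ∧ (∀ b, 2 * b + 4 + m b ≤ j b) ∧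
        Filter.Tendsto (fun b => j b - (2 * b + m b)) Filter.atTop Filter.atTop)) :
    ∃ b0 : ℕ → ℕ, ∀ lam : ℕ → ℂ, (∀ i, IsAlgebraic ℚ (Complex.exp (lam i))) →
      LinearIndependent ℚ lam → GenericPlus lam M j b0 := by
  classical
  have hfin' : ∀ n, {a : ℕ →₀ ℕ | a ∈ M ∧ ∀ b ∈ a.support, b < n}.Finite := by
    intro n
    refine (Set.Finite.biUnion (Finset.range n).finite_toSet fun b _ => hfin b).subset ?_
    rintro a ⟨ha, han⟩
    have hne : a.support.Nonempty := by
      rw [Finset.nonempty_iff_ne_empty]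
      intro h
      rw [Finsupp.support_eq_empty] at h
      have := hM2 a ha
      rw [h, map_zero] at this
      omega
    have hmax := Finset.max'_mem a.support hne
    rw [Set.mem_iUnion₂]
    exact ⟨a.support.max' hne, Finset.mem_coe.2 (Finset.mem_range.2 (han _ hmax)), ha, hmax,
      fun i hi => Finset.le_max' _ _ hi⟩
  have hset : ∀ k b, {a : ℕ →₀ ℕ | a ∈ {a | a ∈ M ∧ k ≤ a.degree} ∧
      a.support ⊆ Finset.range (b + 1) ∧ b ∈ a.support} =
        {a | a ∈ M ∧ k ≤ a.degree ∧ b ∈ a.support ∧ ∀ i ∈ a.support, i ≤ b} := by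
    intro k b
    ext a
    constructor
    · rintro ⟨⟨h1, h2⟩, h3, h4⟩
      exact ⟨h1, h2, h4, fun i hi => Nat.lt_succ_iff.1 (Finset.mem_range.1 (h3 hi))⟩
    · rintro ⟨h1, h2, h3, h4⟩
      exact ⟨⟨h1, h2⟩, fun i hi => Finset.mem_range.2 (Nat.lt_succ_of_le (h4 i hi)), h3⟩
  rcases h with ⟨h1, h2, h3, h4⟩ | ⟨h2, h3, h4⟩
  · obtain ⟨b0, hb0⟩ := main3 hM2 hM hfin' h1 (fun b => by
      unfold mb
      rw [hset]
      exact h2 b) h3 h4
    exact ⟨b0, fun lam halg hli => genericPlus_of (hb0 lam halg hli)⟩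
  · obtain ⟨b0, hb0⟩ := mainM hM2 hM hfin' (fun b => by
      have h5 : M = {a | a ∈ M ∧ 2 ≤ a.degree} := by
        ext a
        exact ⟨fun h => ⟨h, hM2 a h⟩, fun h => h.1⟩
      unfold mb
      rw [h5, hset]
      exact h2 b) h3 h4
    exact ⟨b0, fun lam halg hli => genericPlus_of (hb0 lam halg hli)⟩

end MP60829e.HE
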