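import Pool.Agent.Lib.MP_60829e_nt.HE.StructA

/-! # The class of polynomials -/

open MvPolynomial

namespace MP60829e.HE

open MP60829e.ST (Qa Lsp Lt)
open MP60829e.SB
open MP60829e.HD

/-- The linear form with the coefficients `w b`, `b < n`. -/
noncomputable def lf (w : ℕ → Qa) (n : ℕ) : MvPolynomial ℕ Qa :=
  ∑ b ∈ Finset.range n, C (w b) * X b

/-- The polynomials `q + g (W_1, …, W_d)` with `q` supported in `M` and of degree at most `e`, and
with `g` of degree at most `d` and at most `e` without monomials of degree `0` and `1`, and linear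
forms `W_i` in the variables `X_b`, `b0 d ≤ b < n`; the monomials of `q` have the variables
`X_b`, `b < n`. -/
def Cls (M : Set (ℕ →₀ ℕ)) (b0 : ℕ → ℕ) (n e : ℕ) : Set (MvPolynomial ℕ Qa) :=
  {P | ∃ (d : ℕ) (w : Fin d → ℕ → Qa) (q : MvPolynomial ℕ Qa) (g : MvPolynomial (Fin d) Qa),
    (∀ i b, b < b0 d → w i b = 0) ∧
    (∀ a ∈ q.support, a ∈ M ∧ a.degree ≤ e ∧ ∀ b ∈ a.support, b < n) ∧
    (∀ a ∈ g.support, 2 ≤ a.degree ∧ a.degree ≤ e ∧ a.degree ≤ d) ∧
    P = q + aeval (fun i => lf (w i) n) g}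

/-- The part of degree at least two. -/
noncomputable def hi2 {σ : Type} (P : MvPolynomial σ Qa) : MvPolynomial σ Qa :=
  ∑ a ∈ P.support.filter (fun a => 2 ≤ a.degree), monomial a (coeff a P)

theorem coeff_hi2 {σ : Type} (P : MvPolynomial σ Qa) (a : σ →₀ ℕ) :
    coeff a (hi2 P) = if 2 ≤ a.degree then coeff a P else 0 := by
  classical
  unfold hi2
  rw [coeff_sum]
  simp only [coeff_monomial]
  rw [Finset.sum_ite_eq' _ a]
  by_cases h : 2 ≤ a.degree
  · rw [if_pos h]
    by_cases h1 : a ∈ P.support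
    · rw [if_pos (Finset.mem_filter.2 ⟨h1, h⟩)]
    · rw [if_neg (fun h2 => h1 (Finset.mem_filter.1 h2).1)]
      exact (notMem_support_iff.1 h1).symm
  · rw [if_neg (fun h2 : a ∈ P.support.filter (fun a => 2 ≤ a.degree) =>
      h (Finset.mem_filter.1 h2).2), if_neg h]

theorem mem_hi2 {σ : Type} {P : MvPolynomial σ Qa} {a : σ →₀ ℕ} (h : a ∈ (hi2 P).support) :
    2 ≤ a.degree ∧ a ∈ P.support := by
  rw [mem_support_iff, coeff_hi2] at h
  by_cases h2 : 2 ≤ a.degree
  · rw [if_pos h2] at h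
    exact ⟨h2, mem_support_iff.2 h⟩
  · rw [if_neg h2] at h
    exact absurd rfl h

theorem mem_lo2 {σ : Type} {P : MvPolynomial σ Qa} {a : σ →₀ ℕ} (h : a ∈ (P - hi2 P).support) :
    a.degree ≤ 1 ∧ a ∈ P.support := by
  rw [mem_support_iff, coeff_sub, coeff_hi2] at h
  by_cases h2 : 2 ≤ a.degree
  · rw [if_pos h2, sub_self] at h
    exact absurd rfl h
  · rw [if_neg h2, sub_zero] at h
    exact ⟨by omega, mem_support_iff.2 h⟩

/-- The monomials of `g (W_1, …, W_d)`. -/
theorem mem_aeval_lf {d n : ℕ} (w : Fin d → ℕ → Qa) (g : MvPolynomial (Fin d) Qa) {a : ℕ →₀ ℕ}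
    (ha : a ∈ (aeval (fun i => lf (w i) n) g).support) :
    (∃ c ∈ g.support, c.degree = a.degree) ∧ ∀ b ∈ a.support, b < n := by
  classical
  have hvars : ∀ i, ∀ b ∈ (lf (w i) n).vars, b < n := by
    intro i b hb
    unfold lf at hb
    obtain ⟨c, hc, hbc⟩ := Finset.mem_biUnion.1 (vars_sum_subset _ _ hb)
    rcases Finset.mem_union.1 (vars_mul _ _ hbc) with h1 | h1
    · rw [vars_C] at h1
      exact absurd h1 (Finset.notMem_empty _)
    · rw [vars_X, Finset.mem_singleton] at h1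
      rw [h1]
      exact Finset.mem_range.1 hc
  refine ⟨?_, fun b hb => ?_⟩
  · rw [g.as_sum, map_sum, mem_support_iff, coeff_sum] at ha
    obtain ⟨c, hc, hc'⟩ := Finset.exists_ne_zero_of_sum_ne_zero ha
    refine ⟨c, hc, ?_⟩
    have h1 : (monomial c (coeff c g) : MvPolynomial (Fin d) Qa).IsHomogeneous c.degree :=
      isHomogeneous_monomial _ rfl
    have h2 := h1.aeval (fun i => lf (w i) n) (n := 1) (by
      intro i
      refine IsHomogeneous.sum _ _ _ fun b _ => ?_
      have h3 := (isHomogeneous_C ℕ (w i b)).mul (isHomogeneous_X Qa b)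
      rwa [zero_add] at h3)
    rw [one_mul] at h2
    have h3 := h2 hc'
    rw [← h3, Finsupp.degree_eq_weight_one]
    rfl
  · have h1 : b ∈ (bind₁ (fun i => lf (w i) n) g).vars :=
      (mem_vars_iff_mem_support b).2 ⟨a, ha, hb⟩
    obtain ⟨i, -, hi⟩ := Finset.mem_biUnion.1 (vars_bind₁ _ _ h1)
    exact hvars i b hi

/-- The chain rule. -/
theorem pderiv_aeval_lf {d n : ℕ} (w : Fin d → ℕ → Qa) (g : MvPolynomial (Fin d) Qa) (c : ℕ) :
    pderiv c (aeval (fun i => lf (w i) n) g) =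
      aeval (fun i => lf (w i) n) (∑ i, C (if c < n then w i c else 0) * pderiv i g) := by
  classical
  have hlf : ∀ i, pderiv c (lf (w i) n) = C (if c < n then w i c else 0) := by
    intro i
    unfold lf
    rw [map_sum]
    have h1 : ∀ b ∈ Finset.range n, pderiv c (C (w i b) * X b : MvPolynomial ℕ Qa) =
        if b = c then C (w i c) else 0 := by
      intro b _
      rw [pderiv_mul, pderiv_C, zero_mul, zero_add, pderiv_X]
      by_cases h : b = c
      · subst h
        rw [if_pos rfl, Pi.single_eq_same, mul_one]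
      · rw [if_neg h, Pi.single_eq_of_ne (M := fun _ => MvPolynomial ℕ Qa) h, mul_zero]
    rw [Finset.sum_congr rfl h1, Finset.sum_ite_eq']
    by_cases h : c < n
    · rw [if_pos (Finset.mem_range.2 h), if_pos h]
    · rw [if_neg (fun h2 => h (Finset.mem_range.1 h2)), if_neg h, C_0]
  induction g using MvPolynomial.induction_on with
  | C a =>
    have h1 : aeval (fun i => lf (w i) n) (C a : MvPolynomial (Fin d) Qa) =
        (C a : MvPolynomial ℕ Qa) := algHom_C _ a
    rw [h1, pderiv_C]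
    symm
    have h2 : ∑ i, C (if c < n then w i c else 0) * pderiv i (C a : MvPolynomial (Fin d) Qa) = 0 :=
      Finset.sum_eq_zero fun i _ => by rw [pderiv_C, mul_zero]
    rw [h2, map_zero]
  | add p q hp hq =>
    rw [map_add, map_add, hp, hq, ← map_add, ← Finset.sum_add_distrib]
    congr 1
    refine Finset.sum_congr rfl fun i _ => ?_
    rw [map_add, mul_add]
  | mul_X p i0 hp =>
    rw [map_mul, aeval_X, pderiv_mul, hp, hlf]
    have h2 : ∑ i, C (if c < n then w i c else 0) * pderiv i (p * X i0) =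
        (∑ i, C (if c < n then w i c else 0) * pderiv i p) * X i0 +
          p * C (if c < n then w i0 c else 0) := by
      have h3 : ∀ i, C (if c < n then w i c else 0) * pderiv i (p * X i0) =
          C (if c < n then w i c else 0) * pderiv i p * X i0 +
            (if i = i0 then p * C (if c < n then w i0 c else 0) else 0) := by
        intro i
        rw [pderiv_mul, pderiv_X]
        by_cases h : i = i0
        · subst h
          rw [if_pos rfl, Pi.single_eq_same]
          ring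
        · rw [if_neg h, Pi.single_eq_of_ne (M := fun _ => MvPolynomial (Fin d) Qa) (Ne.symm h)]
          ring
      rw [Finset.sum_congr rfl fun i _ => h3 i, Finset.sum_add_distrib, Finset.sum_ite_eq',
        if_pos (Finset.mem_univ i0), Finset.sum_mul]
    rw [h2, map_add, map_mul, map_mul, aeval_X]
    have h4 : aeval (fun i => lf (w i) n) (C (if c < n then w i0 c else 0) :
        MvPolynomial (Fin d) Qa) = (C (if c < n then w i0 c else 0) : MvPolynomial ℕ Qa) :=
      algHom_C _ _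
    rw [h4]

theorem mem_pderiv {σ : Type} {P : MvPolynomial σ Qa} {i : σ} {a : σ →₀ ℕ}
    (h : a ∈ (pderiv i P).support) : a + Finsupp.single i 1 ∈ P.support := by
  classical
  rw [mem_support_iff, coeff_pderiv] at h
  rw [mem_support_iff]
  exact left_ne_zero_of_mul h

theorem mem_comb {σ ι : Type} {s : Finset ι} {t : ι → Qa} {f : ι → MvPolynomial σ Qa}
    {a : σ →₀ ℕ} (h : a ∈ (∑ c ∈ s, C (t c) * f c).support) : ∃ c ∈ s, a ∈ (f c).support := by
  classical
  rw [mem_support_iff, coeff_sum] at h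
  obtain ⟨c, hc, hc'⟩ := Finset.exists_ne_zero_of_sum_ne_zero h
  rw [coeff_C_mul] at hc'
  exact ⟨c, hc, mem_support_iff.2 (right_ne_zero_of_mul hc')⟩

/-- There is no relation of level `0`. -/
theorem cls_zero {M : Set (ℕ →₀ ℕ)} (hM2 : ∀ a ∈ M, 2 ≤ a.degree) {b0 : ℕ → ℕ} {n : ℕ}
    {P : MvPolynomial ℕ Qa} (hP : P ∈ Cls M b0 n 0) : P = 0 := by
  obtain ⟨d, w, q, g, h1, h2, h3, h4⟩ := hP
  have hq : q = 0 := by
    rw [← support_eq_empty, Finset.eq_empty_iff_forall_notMem]
    intro a ha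
    have h5 := hM2 a (h2 a ha).1
    have h6 := (h2 a ha).2.1
    omega
  have hg : g = 0 := by
    rw [← support_eq_empty, Finset.eq_empty_iff_forall_notMem]
    intro a ha
    have h5 := (h3 a ha).1
    have h6 := (h3 a ha).2.1
    omega
  rw [h4, hq, hg, map_zero, add_zero]

/-- The derivatives. -/
theorem cls_deriv {M : Set (ℕ →₀ ℕ)} (hM2 : ∀ a ∈ M, 2 ≤ a.degree)
    (hM : ∀ a ∈ M, ∀ b ≤ a, 2 ≤ b.degree → b ∈ M) {b0 : ℕ → ℕ} {n e : ℕ}
    {P : MvPolynomial ℕ Qa} (hP : P ∈ Cls M b0 n (e + 1)) (s : Finset ℕ) (t : ℕ → Qa) :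
    ∃ L P' : MvPolynomial ℕ Qa, ∑ c ∈ s, C (t c) * pderiv c P = L + P' ∧
      (∀ a ∈ L.support, a.degree = 1 ∧ ∀ b ∈ a.support, b < n) ∧ P' ∈ Cls M b0 n e := by
  classical
  obtain ⟨d, w, q, g, h1, h2, h3, h4⟩ := hP
  obtain ⟨q', hq'⟩ : ∃ q' : MvPolynomial ℕ Qa, q' = ∑ c ∈ s, C (t c) * pderiv c q := ⟨_, rfl⟩
  obtain ⟨g', hg'⟩ : ∃ g' : MvPolynomial (Fin d) Qa, g' = ∑ c ∈ s, C (t c) *
      ∑ i, C (if c < n then w i c else 0) * pderiv i g := ⟨_, rfl⟩
  have hsum : ∑ c ∈ s, C (t c) * pderiv c P = q' + aeval (fun i => lf (w i) n) g' := by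
    rw [hq', hg', map_sum, ← Finset.sum_add_distrib]
    refine Finset.sum_congr rfl fun c _ => ?_
    have h5 : aeval (fun i => lf (w i) n) (C (t c) : MvPolynomial (Fin d) Qa) =
        (C (t c) : MvPolynomial ℕ Qa) := algHom_C _ _
    rw [map_mul, h5, ← pderiv_aeval_lf, ← mul_add, h4, map_add]
  have hq1 : ∀ a ∈ q'.support, 1 ≤ a.degree ∧ a.degree ≤ e ∧ (2 ≤ a.degree → a ∈ M) ∧
      ∀ b ∈ a.support, b < n := by
    intro a ha
    rw [hq'] at ha
    obtain ⟨c, -, hc⟩ := mem_comb ha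
    have h5 := mem_pderiv hc
    obtain ⟨h6, h7, h8⟩ := h2 _ h5
    have h9 := hM2 _ h6
    rw [map_add, Finsupp.degree_single] at h7 h9
    refine ⟨by omega, by omega, fun h10 => hM _ h6 _ (self_le_add_right _ _) h10,
      fun b hb => h8 b ?_⟩
    rw [Finsupp.mem_support_iff] at hb ⊢
    rw [Finsupp.add_apply]
    omega
  have hg1 : ∀ a ∈ g'.support, 1 ≤ a.degree ∧ a.degree ≤ e ∧ a.degree ≤ d := by
    intro a ha
    rw [hg'] at ha
    obtain ⟨c, -, hc⟩ := mem_comb ha
    obtain ⟨i, -, hi⟩ := mem_comb hc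
    have h5 := mem_pderiv hi
    obtain ⟨h6, h7, h8⟩ := h3 _ h5
    rw [map_add, Finsupp.degree_single] at h6 h7 h8
    omega
  refine ⟨(q' - hi2 q') + aeval (fun i => lf (w i) n) (g' - hi2 g'),
    hi2 q' + aeval (fun i => lf (w i) n) (hi2 g'), ?_, fun a ha => ?_, ?_⟩
  · rw [hsum, map_sub]
    ring
  · rcases Finset.mem_union.1 (support_add ha) with h5 | h5
    · obtain ⟨h6, h7⟩ := mem_lo2 h5
      have h8 := hq1 a h7
      exact ⟨by omega, h8.2.2.2⟩
    · obtain ⟨⟨c, hc, hc'⟩, h6⟩ := mem_aeval_lf w _ h5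
      obtain ⟨h7, h8⟩ := mem_lo2 hc
      have h9 := hg1 c h8
      exact ⟨by omega, h6⟩
  · refine ⟨d, w, hi2 q', hi2 g', h1, fun a ha => ?_, fun a ha => ?_, rfl⟩
    · obtain ⟨h5, h6⟩ := mem_hi2 ha
      have h7 := hq1 a h6
      exact ⟨h7.2.2.1 h5, h7.2.1, h7.2.2.2⟩
    · obtain ⟨h5, h6⟩ := mem_hi2 ha
      have h7 := hg1 a h6
      exact ⟨h5, h7.2.1, h7.2.2⟩

/-- The monomials of the elements of the class. -/
theorem cls_supp {M : Set (ℕ →₀ ℕ)} (hM2 : ∀ a ∈ M, 2 ≤ a.degree) {b0 : ℕ → ℕ} {n e : ℕ}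
    {P : MvPolynomial ℕ Qa} (hP : P ∈ Cls M b0 n e) :
    ∀ a ∈ P.support, 2 ≤ a.degree ∧ a.degree ≤ e ∧ ∀ b ∈ a.support, b < n := by
  classical
  obtain ⟨d, w, q, g, h1, h2, h3, h4⟩ := hP
  intro a ha
  rw [h4] at ha
  rcases Finset.mem_union.1 (support_add ha) with h5 | h5
  · obtain ⟨h6, h7, h8⟩ := h2 a h5
    exact ⟨hM2 a h6, h7, h8⟩
  · obtain ⟨⟨c, hc, hc'⟩, h6⟩ := mem_aeval_lf w _ h5
    obtain ⟨h7, h8, -⟩ := h3 c hc
    exact ⟨by omega, by omega, h6⟩

/-- Only one variable more. -/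
theorem cls_of_pderiv {M : Set (ℕ →₀ ℕ)} (hM2 : ∀ a ∈ M, 2 ≤ a.degree) {b0 : ℕ → ℕ} {n e : ℕ}
    {P : MvPolynomial ℕ Qa} (hP : P ∈ Cls M b0 (n + 1) e) (h0 : pderiv n P = 0) :
    P ∈ Cls M b0 n e := by
  classical
  have hs : SuppIn Set.univ n P := suppIn_of_pderiv (M := Set.univ) (fun a ha =>
    ⟨trivial, (cls_supp hM2 hP a ha).2.2⟩) h0
  obtain ⟨d, w, q, g, h1, h2, h3, h4⟩ := hP
  obtain ⟨φ, hφ⟩ : ∃ φ : MvPolynomial ℕ Qa →ₐ[Qa] MvPolynomial ℕ Qa,
      φ = aeval (fun i => if i < n then X i else 0) := ⟨_, rfl⟩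
  have hφX : ∀ i, φ (X i) = if i < n then X i else 0 := fun i => by rw [hφ, aeval_X]
  have hφ1 : φ P = P := by
    rw [P.as_sum, map_sum]
    refine Finset.sum_congr rfl fun a ha => ?_
    rw [hφ, aeval_monomial, monomial_eq, algebraMap_eq]
    congr 1
    refine Finset.prod_congr rfl fun i hi => ?_
    dsimp only
    rw [if_pos ((hs a ha).2 i hi)]
  have hφ2 : φ (aeval (fun i => lf (w i) (n + 1)) g) = aeval (fun i => lf (w i) n) g := by
    have h5 : ∀ i, φ (lf (w i) (n + 1)) = lf (w i) n := by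
      intro i
      unfold lf
      rw [map_sum, Finset.sum_range_succ]
      have h6 : φ (C (w i n) * X n) = 0 := by
        rw [map_mul, hφX, if_neg (lt_irrefl n), mul_zero]
      rw [h6, add_zero]
      refine Finset.sum_congr rfl fun b hb => ?_
      rw [map_mul, hφX, if_pos (Finset.mem_range.1 hb)]
      congr 1
      rw [hφ]
      exact algHom_C _ _
    have h6 : φ.comp (aeval fun i => lf (w i) (n + 1)) = aeval (fun i => lf (w i) n) := by
      refine MvPolynomial.algHom_ext fun i => ?_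
      rw [AlgHom.comp_apply, aeval_X, aeval_X, h5]
    rw [← h6]
    rfl
  have hφ3 : ∀ a ∈ (φ q).support, a ∈ q.support ∧ ∀ b ∈ a.support, b < n := by
    intro a ha
    have h5 : φ q = ∑ c ∈ q.support.filter (fun c => ∀ b ∈ c.support, b < n),
        monomial c (coeff c q) := by
      conv_lhs => rw [q.as_sum]
      rw [map_sum, Finset.sum_filter]
      refine Finset.sum_congr rfl fun c _ => ?_
      rw [hφ, aeval_monomial, algebraMap_eq]
      by_cases h6 : ∀ b ∈ c.support, b < n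
      · rw [if_pos h6, monomial_eq]
        congr 1
        refine Finset.prod_congr rfl fun i hi => ?_
        dsimp only
        rw [if_pos (h6 i hi)]
      · rw [if_neg h6]
        push Not at h6
        obtain ⟨b, hb, hb'⟩ := h6
        have h7 : (c.prod fun i k => (if i < n then (X i : MvPolynomial ℕ Qa) else 0) ^ k) = 0 := by
          refine Finset.prod_eq_zero hb ?_
          dsimp only
          rw [if_neg (not_lt.2 hb'), zero_pow (Finsupp.mem_support_iff.1 hb)]
        rw [h7, mul_zero]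
    rw [h5, mem_support_iff, coeff_sum] at ha
    obtain ⟨c, hc, hc'⟩ := Finset.exists_ne_zero_of_sum_ne_zero ha
    rw [coeff_monomial] at hc'
    have h6 : c = a := by
      by_contra h6
      rw [if_neg h6] at hc'
      exact hc' rfl
    rw [← h6]
    exact Finset.mem_filter.1 hc
  refine ⟨d, w, φ q, g, h1, fun a ha => ?_, h3, ?_⟩
  · obtain ⟨h5, h6⟩ := hφ3 a ha
    exact ⟨(h2 a h5).1, (h2 a h5).2.1, h6⟩
  · rw [← hφ1, h4, map_add, hφ2]

end MP60829e.HE
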