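import Pool.Agent.Lib.MP_60829e_nt.HE.StructW
import Pool.Agent.Lib.MP_60829e_nt.HD.CoreL

/-! # The inductive step -/

open MvPolynomial Module

namespace MP60829e.HE

open MP60829e.ST (Qa Lsp Lt)
open MP60829e.PS
open MP60829e.SB
open MP60829e.HD

/-- Off a hypersurface in the variables of the rows `al, …, be - 1`, the numbers
`val lam j V b`, `b < be`, satisfy `FreeW`, if the rows `< al` of `V` are those of `V0`. -/
def GenFreeW (M : Set (ℕ →₀ ℕ)) (b0 : ℕ → ℕ) (lam : ℕ → ℂ) (j : ℕ → ℕ) (V0 : ℕ × ℕ → Qa)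
    (al be : ℕ) : Prop :=
  ∃ H : MvPolynomial (ℕ × ℕ) Qa, H ≠ 0 ∧ (∀ p ∈ H.vars, al ≤ p.1 ∧ p.1 < be ∧ p.2 < j p.1) ∧
    ∀ V : ℕ × ℕ → Qa, (∀ p, p.1 < al → V p = V0 p) → eval V H ≠ 0 →
      FreeW M b0 be (val lam j V)

theorem coreW {lam : ℕ → ℂ} (hlam : LinearIndependent Qa lam) (hlog : ∀ i, lam i ∈ Lsp)
    {M : Set (ℕ →₀ ℕ)} (hM2 : ∀ a ∈ M, 2 ≤ a.degree)
    (hM : ∀ a ∈ M, ∀ b ≤ a, 2 ≤ b.degree → b ∈ M)
    (hfin : ∀ n, {a : ℕ →₀ ℕ | a ∈ M ∧ ∀ b ∈ a.support, b < n}.Finite) {b0 : ℕ → ℕ}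
    (hb0 : ∀ d, d ≤ b0 d) (j : ℕ → ℕ)
    (V0 : ℕ × ℕ → Qa) {al be : ℕ} (hab : al ≤ be) (h1 : GenFree M1 lam j V0 al (be + 1))
    (hprev : GenFreeW M b0 lam j V0 al be)
    (hcount : ∀ Q ⊆ Finset.Ico al (be + 1), be ∈ Q → ∀ d, (d = 0 ∨ b0 d ≤ be) → ∃ B ⊆ Q,
      ∑ c ∈ Q, (Finset.Ico al c \ Q).card + NM M (Finset.range al ∪ Q) +
        (d * (Finset.range al ∪ Q).card + (S3 d).card) + B.card * (B.card + 1) + 2 ≤
        ∑ b ∈ B, j b) :
    GenFreeW M b0 lam j V0 al (be + 1) := by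
  classical
  by_contra hcon
  obtain ⟨H0, hH0, hH1, hH2⟩ := hprev
  obtain ⟨H3, hH3, hH4, hH5⟩ := h1
  obtain ⟨U, hU1, hU2, hU3⟩ := exists_U j V0 al (be + 1)
    (fun V => ¬ FreeW M b0 (be + 1) (val lam j V)) (by
    intro H hH hvars
    by_contra hne
    refine hcon ⟨H, hH, hvars, fun V hV1 hV2 => ?_⟩
    by_contra hV3
    exact hne ⟨V, hV1, hV2, hV3⟩)
  have hfree : ∀ᶠ V in (U : Filter {V : ℕ × ℕ → Qa // ∀ p, p.1 < al → V p = V0 p}),
      FreeW M b0 be (val lam j V.1) := by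
    refine (hU3 H0 hH0 fun p hp => ?_).mono fun V hV => hH2 V.1 V.2 hV
    obtain ⟨h1, h2, h3⟩ := hH1 p hp
    exact ⟨h1, by omega, h3⟩
  have hfree1 : ∀ᶠ V in (U : Filter {V : ℕ × ℕ → Qa // ∀ p, p.1 < al → V p = V0 p}),
      Free M1 (be + 1) (val lam j V.1) :=
    (hU3 H3 hH3 hH4).mono fun V hV => hH5 V.1 V.2 hV
  have hmem : ∀ (V : ℕ × ℕ → Qa) (i : ℕ), val lam j V i ∈ Lsp := fun V i =>
    Submodule.sum_mem _ fun l _ => Submodule.smul_mem _ _ (hlog l)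
  -- the data
  have h1 : ∀ᶠ V in (U : Filter {V : ℕ × ℕ → Qa // ∀ p, p.1 < al → V p = V0 p}),
      ∃ p : {Q // Q ∈ (Finset.Ico al (be + 1)).powerset} × {d // d ∈ Finset.range (be + 1)},
      be ∈ p.1.1 ∧ (p.2.1 = 0 ∨ b0 p.2.1 ≤ be) ∧
      ∃ z : ZW (PR al p.1.1) (SW M (Finset.range al ∪ p.1.1)) (Finset.range al ∪ p.1.1) p.2.1 → Qa,
        eval (pv z fun i : Fin (be + 1) => val lam j V.1 i.1) (GW (PR al p.1.1)
          (SW M (Finset.range al ∪ p.1.1)) (Finset.range al ∪ p.1.1) p.2.1 (be + 1)) ∈ Lt ∧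
        LinearIndependent Qa fun o : Option {i : Fin (be + 1) // i.1 ∈ p.1.1} =>
          o.elim (1 : ℂ) fun i =>
          eval (pv z fun i : Fin (be + 1) => val lam j V.1 i.1) (pderiv (Sum.inr i.1)
            (GW (PR al p.1.1) (SW M (Finset.range al ∪ p.1.1)) (Finset.range al ∪ p.1.1) p.2.1
              (be + 1))) := by
    filter_upwards [hU1, hfree, hfree1] with V hV1 hV2 hV3
    obtain ⟨Q, hQ1, hQ2, d, hd, hz⟩ := structW hM2 hM hfin b0 hab _ (fun i _ => hmem V.1 i) hV3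
      hV2 hV1
    refine ⟨(⟨Q, Finset.mem_powerset.2 hQ1⟩, ⟨d, ?_⟩), hQ2, hd, hz⟩
    rw [Finset.mem_range]
    have h4 := hb0 d
    omega
  obtain ⟨⟨⟨Q, hQ⟩, ⟨d, hd'⟩⟩, hp⟩ := FS.pickE U _ h1
  dsimp only at hp
  have hQ1 := Finset.mem_powerset.1 hQ
  obtain ⟨hQ2, hd, -⟩ := hp.exists.choose_spec
  obtain ⟨z, hz⟩ := (hp.mono fun V hV => hV.2.2).choice
  obtain ⟨B, hBQ, hB⟩ := hcount Q hQ1 hQ2 d hd
  have h2 := countL hlam hlog j V0 U (fun V s => V.1 (s.1.1, s.1.2)) hU2 (fun V => V.1)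
    (fun V p => rfl) (fun V p hp => V.2 p hp) (GW (PR al Q) (SW M (Finset.range al ∪ Q))
      (Finset.range al ∪ Q) d (be + 1)) z (hz.mono fun V hV => hV.1) B
    (hBQ.trans hQ1) (by
      refine hz.mono fun V hV => ?_
      obtain ⟨f, hf⟩ : ∃ f : {i : Fin (be + 1) // i.1 ∈ B} → {i : Fin (be + 1) // i.1 ∈ Q},
          f = fun i => ⟨i.1, hBQ i.2⟩ := ⟨_, rfl⟩
      have hfi : Function.Injective f := by
        intro i i' hii
        rw [hf] at hii
        have h3 := congrArg Subtype.val hii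
        exact Subtype.ext h3
      have h4 := hV.2.comp (Option.map f) (Option.map_injective hfi)
      have h5 : (fun o : Option {i : Fin (be + 1) // i.1 ∈ B} => o.elim (1 : ℂ) fun i =>
          eval (pv (z V) fun i : Fin (be + 1) => val lam j V.1 i.1) (pderiv (Sum.inr i.1)
            (GW (PR al Q) (SW M (Finset.range al ∪ Q)) (Finset.range al ∪ Q) d (be + 1)))) =
          (fun o : Option {i : Fin (be + 1) // i.1 ∈ Q} => o.elim (1 : ℂ) fun i =>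
          eval (pv (z V) fun i : Fin (be + 1) => val lam j V.1 i.1) (pderiv (Sum.inr i.1)
            (GW (PR al Q) (SW M (Finset.range al ∪ Q)) (Finset.range al ∪ Q) d (be + 1)))) ∘
            Option.map f := by
        funext o
        rcases o with _ | i
        · rfl
        · rw [hf]
          rfl
      rw [h5]
      exact h4)
  have h3 : Fintype.card (ZW (PR al Q) (SW M (Finset.range al ∪ Q)) (Finset.range al ∪ Q) d) =
      (PR al Q).card + ((SW M (Finset.range al ∪ Q)).card +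
        (d * (Finset.range al ∪ Q).card + (S3 d).card)) := by
    rw [Fintype.card_sum, Fintype.card_sum, Fintype.card_sum, Fintype.card_prod,
      Fintype.card_fin, Fintype.card_coe, Fintype.card_coe, Fintype.card_coe, Fintype.card_coe]
  rw [h3, card_PR, card_SW hfin] at h2
  omega

end MP60829e.HE
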