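import Pool.Agent.Lib.MP_60829e_nt.HD.CountL

/-! # The counts -/

open Finset

namespace MP60829e.HE

open MP60829e.HD

/-- The last element of `Q` sees the elements outside `Q` once more. -/
theorem sum_le_erase {α β : ℕ} {Q B : Finset ℕ} (hB : B ⊆ Q) (hβ : β ∈ B)
    (ht : ∀ b ∈ B, ∀ c ∈ Q \ B, c < b) (hc : Q.card < 2 * B.card) :
    ∑ c ∈ Q, (Ico α c \ Q).card + (Ico α β \ Q).card ≤ 2 * ∑ b ∈ B, (Ico α b \ Q).card := by
  have h1 : ∑ c ∈ Q \ B, (Ico α c \ Q).card ≤ ∑ b ∈ B.erase β, (Ico α b \ Q).card := by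
    have h2 : ∀ c ∈ Q \ B, (Ico α c \ Q).card ≤ (Q \ B).sup fun c => (Ico α c \ Q).card :=
      fun c hc => le_sup (f := fun c => (Ico α c \ Q).card) hc
    have h3 : ∀ b ∈ B.erase β, ((Q \ B).sup fun c => (Ico α c \ Q).card) ≤ (Ico α b \ Q).card := by
      intro b hb
      refine Finset.sup_le fun c hc => card_le_card ?_
      exact sdiff_subset_sdiff (Ico_subset_Ico_right (ht b (mem_of_mem_erase hb) c hc).le)
        subset_rfl
    calc ∑ c ∈ Q \ B, (Ico α c \ Q).card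
        ≤ (Q \ B).card • ((Q \ B).sup fun c => (Ico α c \ Q).card) := sum_le_card_nsmul _ _ _ h2
      _ ≤ (B.erase β).card • ((Q \ B).sup fun c => (Ico α c \ Q).card) := by
          refine Nat.mul_le_mul_right _ ?_
          rw [card_sdiff_of_subset hB, card_erase_of_mem hβ]
          omega
      _ ≤ ∑ b ∈ B.erase β, (Ico α b \ Q).card := card_nsmul_le_sum _ _ _ h3
  have h2 := sum_sdiff (f := fun c => (Ico α c \ Q).card) hB
  have h3 := sum_erase_add B (fun c => (Ico α c \ Q).card) hβ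
  omega

/-- The gain. -/
theorem gain {α β T K : ℕ} {c : ℕ → ℕ} (hc : ∀ b, T ≤ b → 2 * K ≤ c b)
    (h : K = 0 ∨ α + 2 * T + 2 * K * T ≤ β + 1) {Q B : Finset ℕ} (hQ : Q ⊆ Ico α (β + 1))
    (hβ : β ∈ Q) (hB : B ⊆ Q) (ht : ∀ b ∈ B, ∀ c ∈ Q \ B, c < b) (hcard : Q.card < 2 * B.card) :
    K * Q.card + ∑ c ∈ Q, (Ico α c \ Q).card ≤
      2 * ∑ b ∈ B, (Ico α b \ Q).card + ∑ b ∈ B, c b := by
  classical
  have hQ1 : ∀ b ∈ Q, α ≤ b := fun b hb => (mem_Ico.1 (hQ hb)).1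
  have hBne : B.Nonempty := by
    rw [← card_pos]
    omega
  have hβB : β ∈ B := by
    by_contra h1
    obtain ⟨b, hb⟩ := hBne
    have h2 := ht b hb β (mem_sdiff.2 ⟨hβ, h1⟩)
    have h3 := (mem_Ico.1 (hQ (hB hb))).2
    omega
  have h1 := sum_le_erase (α := α) hB hβB ht hcard
  rcases h with rfl | h
  · omega
  by_cases he : Q.card < 2 * T
  · have h2 := pos_eq hQ1 hβ
    have h3 := card_filter_lt hβ
    have h4 : 1 ≤ Q.card := card_pos.2 ⟨β, hβ⟩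
    have h5 : K * Q.card ≤ 2 * K * T := by
      calc K * Q.card ≤ K * (2 * T) := Nat.mul_le_mul_left _ he.le
        _ = 2 * K * T := by ring
    omega
  · have h2 : Q.card ≤ 2 * (B.filter (T ≤ ·)).card := by
      have h3 : (B.filter (T ≤ ·)).card + (B.filter (· < T)).card = B.card := by
        rw [← card_filter_add_card_filter_not (s := B) (T ≤ ·)]
        congr 2
        ext b
        simp only [mem_filter, not_le]
      by_cases h4 : B.filter (· < T) = ∅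
      · rw [h4, card_empty] at h3
        omega
      · obtain ⟨b, hb⟩ := nonempty_iff_ne_empty.2 h4
        rw [mem_filter] at hb
        have h5 : (Q \ B) ∪ B.filter (· < T) ⊆ range T := by
          intro i hi
          rw [mem_range]
          rcases mem_union.1 hi with h6 | h6
          · exact (ht b hb.1 i h6).trans hb.2
          · exact (mem_filter.1 h6).2
        have h6 := card_le_card h5
        rw [card_range, card_union_of_disjoint, card_sdiff_of_subset hB] at h6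
        · have h7 := card_le_card hB
          omega
        · rw [disjoint_left]
          intro i hi hi'
          exact (mem_sdiff.1 hi).2 (mem_filter.1 hi').1
    have h3 : (B.filter (T ≤ ·)).card * (2 * K) ≤ ∑ b ∈ B, c b := by
      calc (B.filter (T ≤ ·)).card * (2 * K) = (B.filter (T ≤ ·)).card • (2 * K) := rfl
        _ ≤ ∑ b ∈ B.filter (T ≤ ·), c b :=
          card_nsmul_le_sum _ _ _ fun b hb => hc b (mem_filter.1 hb).2
        _ ≤ ∑ b ∈ B, c b := sum_le_sum_of_subset (filter_subset _ _)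
    have h4 : K * Q.card ≤ (B.filter (T ≤ ·)).card * (2 * K) := by
      calc K * Q.card ≤ K * (2 * (B.filter (T ≤ ·)).card) := Nat.mul_le_mul_left _ h2
        _ = (B.filter (T ≤ ·)).card * (2 * K) := by ring
    omega

private theorem mul_le {X d K e : ℕ} (hK : X + d ≤ K) (he : 1 ≤ e) : X + d * e ≤ K * e := by
  obtain ⟨f, rfl⟩ := Nat.exists_eq_add_of_le' he
  have h1 : d ≤ K := by omega
  calc X + d * (f + 1) = (X + d) + d * f := by ring
    _ ≤ K + K * f := add_le_add hK (Nat.mul_le_mul_right f h1)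
    _ = K * (f + 1) := by ring

private theorem arith {α d G N e x K : ℕ} (hx : x = e / 2 + 1) (he : 1 ≤ e)
    (hN : 2 * N ≤ (α + e) * (α + e + 1)) (h4 : α * (α + 1) + d * α + G + d * e ≤ K * e) :
    N + (d * (α + e) + G) + x * (x + 1) + 2 ≤
      2 * x * (α + (e - x) + 2) + x * (x - 1) + x + K * e := by
  have h0 : 0 ≤ α * α := Nat.zero_le _
  rcases Nat.even_or_odd' e with ⟨t, rfl | rfl⟩
  · have h6 : 1 ≤ t := by omega
    obtain ⟨s, rfl⟩ := Nat.exists_eq_add_of_le' h6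
    have h7 : x = s + 2 := by omega
    subst h7
    have h8 : 2 * (s + 1) - (s + 2) = s := by omega
    have h9 : s + 2 - 1 = s + 1 := by omega
    rw [h8, h9]
    nlinarith
  · have h7 : x = t + 1 := by omega
    subst h7
    have h8 : 2 * t + 1 - (t + 1) = t := by omega
    rw [h8, Nat.add_sub_cancel]
    nlinarith

/-- The count for the monomials of degree two. -/
theorem countW2 {α β T K d G : ℕ} {j c : ℕ → ℕ} (hj : ∀ b, 2 * b + 5 + c b ≤ j b)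
    (hc : ∀ b, T ≤ b → 2 * K ≤ c b) (h : K = 0 ∨ α + 2 * T + 2 * K * T ≤ β + 1)
    (hK : α * (α + 1) + d * α + d + G ≤ K) {Q : Finset ℕ} (hQ : Q ⊆ Ico α (β + 1))
    (hβ : β ∈ Q) : ∃ B ⊆ Q, (∀ b ∈ B, ∀ c ∈ Q \ B, c < b) ∧ Q.card ≤ 2 * B.card ∧
      ∑ c ∈ Q, (Ico α c \ Q).card +
        {a : ℕ →₀ ℕ | a ∈ {a : ℕ →₀ ℕ | a.degree = 2} ∧ a.support ⊆ range α ∪ Q}.ncard +
        (d * (range α ∪ Q).card + G) + B.card * (B.card + 1) + 2 ≤ ∑ b ∈ B, j b := by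
  classical
  have hQ1 : ∀ b ∈ Q, α ≤ b := fun b hb => (mem_Ico.1 (hQ hb)).1
  have hN := card_two' (range α ∪ Q)
  rw [card_range_union hQ] at hN ⊢
  obtain ⟨N, hN'⟩ : ∃ N, N = {a : ℕ →₀ ℕ | a ∈ {a : ℕ →₀ ℕ | a.degree = 2} ∧
    a.support ⊆ range α ∪ Q}.ncard := ⟨_, rfl⟩
  rw [← hN'] at hN ⊢
  have hcard : 1 ≤ Q.card := card_pos.2 ⟨β, hβ⟩
  obtain ⟨B, hB, hBc, ht⟩ := exists_top Q (Q.card / 2 + 1) (by omega)
  refine ⟨B, hB, ht, by omega, ?_⟩
  have h1 := gain hc h hQ hβ hB ht (by omega)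
  have h2 := sum_top (α := α) hQ1 hB ht
  have h3 : ∑ b ∈ B, (2 * b + 4) + B.card + ∑ b ∈ B, c b ≤ ∑ b ∈ B, j b := by
    have h4 : ∑ b ∈ B, (2 * b + 4) + B.card + ∑ b ∈ B, c b = ∑ b ∈ B, (2 * b + 5 + c b) := by
      rw [card_eq_sum_ones, ← sum_add_distrib, ← sum_add_distrib]
    rw [h4]
    exact sum_le_sum fun b _ => hj b
  have h4 : α * (α + 1) + d * α + G + d * Q.card ≤ K * Q.card := mul_le (by omega) hcard
  have h5 := arith hBc hcard hN h4
  omega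

/-- A nondecreasing function is summed mostly over the top. -/
theorem sum_mono_le {m : ℕ → ℕ} (hm : Monotone m) {Q B : Finset ℕ} (hB : B ⊆ Q)
    (ht : ∀ b ∈ B, ∀ c ∈ Q \ B, c < b) (hc : Q.card ≤ 2 * B.card) :
    ∑ c ∈ Q, m c ≤ 2 * ∑ b ∈ B, m b := by
  have h1 : ∑ c ∈ Q \ B, m c ≤ ∑ b ∈ B, m b := by
    have h2 : ∀ c ∈ Q \ B, m c ≤ (Q \ B).sup m := fun c hc => le_sup (f := m) hc
    have h3 : ∀ b ∈ B, (Q \ B).sup m ≤ m b := fun b hb =>
      Finset.sup_le fun c hc => hm (ht b hb c hc).le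
    calc ∑ c ∈ Q \ B, m c ≤ (Q \ B).card • (Q \ B).sup m := sum_le_card_nsmul _ _ _ h2
      _ ≤ B.card • (Q \ B).sup m := by
          refine Nat.mul_le_mul_right _ ?_
          rw [card_sdiff_of_subset hB]
          omega
      _ ≤ ∑ b ∈ B, m b := card_nsmul_le_sum _ _ _ h3
  rw [← sum_sdiff hB]
  omega

/-- The count for a set of monomials with few elements of degree at least three. -/
theorem countW3 (M : Set (ℕ →₀ ℕ)) (hfin : ∀ n, {a | a ∈ M ∧ ∀ b ∈ a.support, b < n}.Finite)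
    (hM2 : ∀ a ∈ M, 2 ≤ a.degree) {m : ℕ → ℕ} (hm : Monotone m)
    (hmb : ∀ b, mb {a | a ∈ M ∧ 3 ≤ a.degree} b ≤ m b) {α β T K d G : ℕ} {j c : ℕ → ℕ}
    (hj : ∀ b, 2 * b + 5 + 2 * m b + c b ≤ j b)
    (hc : ∀ b, T ≤ b → 2 * K ≤ c b) (h : K = 0 ∨ α + 2 * T + 2 * K * T ≤ β + 1)
    (hK : {a | a ∈ {a | a ∈ M ∧ 3 ≤ a.degree} ∧ a.support ⊆ range α}.ncard + α * (α + 1) +
      d * α + d + G ≤ K) {Q : Finset ℕ} (hQ : Q ⊆ Ico α (β + 1))
    (hβ : β ∈ Q) : ∃ B ⊆ Q, ∑ c ∈ Q, (Ico α c \ Q).card +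
      {a : ℕ →₀ ℕ | a ∈ M ∧ a.support ⊆ range α ∪ Q}.ncard +
      (d * (range α ∪ Q).card + G) + B.card * (B.card + 1) + 2 ≤ ∑ b ∈ B, j b := by
  classical
  have hfin3 : ∀ n, {a | a ∈ {a | a ∈ M ∧ 3 ≤ a.degree} ∧ ∀ b ∈ a.support, b < n}.Finite :=
    fun n => (hfin n).subset fun a ha => ⟨ha.1.1, ha.2⟩
  have h1 := card_le {a | a ∈ M ∧ 3 ≤ a.degree} hfin3 α Q
  have h2 : {a : ℕ →₀ ℕ | a ∈ M ∧ a.support ⊆ range α ∪ Q}.ncard ≤
      {a : ℕ →₀ ℕ | a ∈ {a : ℕ →₀ ℕ | a.degree = 2} ∧ a.support ⊆ range α ∪ Q}.ncard +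
      {a | a ∈ {a | a ∈ M ∧ 3 ≤ a.degree} ∧ a.support ⊆ range α ∪ Q}.ncard := by
    refine (Set.ncard_le_ncard ?_ (Set.Finite.union ?_ ?_)).trans (Set.ncard_union_le _ _)
    · rintro a ⟨h2, h3⟩
      have h4 := hM2 a h2
      rcases Nat.eq_or_lt_of_le h4 with h5 | h5
      · exact Or.inl ⟨h5.symm, h3⟩
      · exact Or.inr ⟨⟨h2, h5⟩, h3⟩
    · refine (finsuppAntidiag (range α ∪ Q) 2).finite_toSet.subset ?_
      rintro a ⟨ha1, ha2⟩
      rw [Set.mem_ofPred_eq] at ha1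
      rw [mem_coe, mem_finsuppAntidiag]
      refine ⟨?_, ha2⟩
      rw [← ha1, Finsupp.degree_apply]
      exact (sum_subset ha2 fun b _ hb => Finsupp.notMem_support_iff.1 hb).symm
    · refine (hfin3 (β + 1)).subset ?_
      rintro a ⟨ha1, ha2⟩
      refine ⟨ha1, fun b hb => ?_⟩
      rcases mem_union.1 (ha2 hb) with h3 | h3
      · have h4 := mem_range.1 h3
        have h5 := mem_Ico.1 (hQ hβ)
        omega
      · exact (mem_Ico.1 (hQ h3)).2
  obtain ⟨F, hF⟩ : ∃ F, F = {a | a ∈ {a | a ∈ M ∧ 3 ≤ a.degree} ∧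
    a.support ⊆ range α}.ncard := ⟨_, rfl⟩
  rw [← hF] at hK h1
  have hj' : ∀ b, 2 * b + 5 + c b ≤ j b - 2 * m b := fun b => by
    have := hj b
    omega
  obtain ⟨B, hB, ht, hBc, h3⟩ := countW2 (j := fun b => j b - 2 * m b) (d := d) (G := G + F) hj'
    hc h (by omega) hQ hβ
  refine ⟨B, hB, ?_⟩
  have h4 := sum_mono_le hm hB ht hBc
  have h5 : ∑ b ∈ B, (j b - 2 * m b) + 2 * ∑ b ∈ B, m b = ∑ b ∈ B, j b := by
    rw [mul_sum, ← sum_add_distrib]
    refine sum_congr rfl fun b _ => ?_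
    have := hj b
    omega
  have h6 : ∑ c ∈ Q, mb {a | a ∈ M ∧ 3 ≤ a.degree} c ≤ ∑ c ∈ Q, m c :=
    sum_le_sum fun c _ => hmb c
  omega

/-- The count for a general set of monomials. -/
theorem countWM (M : Set (ℕ →₀ ℕ)) (hfin : ∀ n, {a | a ∈ M ∧ ∀ b ∈ a.support, b < n}.Finite)
    {α β T K d G : ℕ} {j c : ℕ → ℕ} (hj : ∀ b, mb M b + 2 * b + 4 + c b ≤ j b)
    (hc : ∀ b, T ≤ b → 2 * K ≤ c b) (h : K = 0 ∨ α + 2 * T + 2 * K * T ≤ β + 1)
    (hK : {a | a ∈ M ∧ a.support ⊆ range α}.ncard + d * α + d + G ≤ K) {Q : Finset ℕ}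
    (hQ : Q ⊆ Ico α (β + 1)) (hβ : β ∈ Q) : ∃ B ⊆ Q, ∑ c ∈ Q, (Ico α c \ Q).card +
      {a : ℕ →₀ ℕ | a ∈ M ∧ a.support ⊆ range α ∪ Q}.ncard +
      (d * (range α ∪ Q).card + G) + B.card * (B.card + 1) + 2 ≤ ∑ b ∈ B, j b := by
  classical
  have hQ1 : ∀ b ∈ Q, α ≤ b := fun b hb => (mem_Ico.1 (hQ hb)).1
  have hN := card_le M hfin α Q
  rw [card_range_union hQ]
  have hcard : 1 ≤ Q.card := card_pos.2 ⟨β, hβ⟩
  refine ⟨Q, subset_rfl, ?_⟩
  have h1 := gain hc h hQ hβ subset_rfl (by simp) (by omega)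
  have h2 := sum_top (α := α) hQ1 subset_rfl (by simp)
  have h3 : ∑ b ∈ Q, (2 * b + 4) + ∑ b ∈ Q, mb M b + ∑ b ∈ Q, c b ≤ ∑ b ∈ Q, j b := by
    rw [← sum_add_distrib, ← sum_add_distrib]
    refine sum_le_sum fun b _ => ?_
    have := hj b
    omega
  have h4 : {a | a ∈ M ∧ a.support ⊆ range α}.ncard + d * α + G + d * Q.card ≤ K * Q.card :=
    mul_le (by omega) hcard
  rw [Nat.sub_self, add_zero] at h2
  have h5 : Q.card * (Q.card + 1) + d * (α + Q.card) + 2 ≤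
      2 * Q.card * (α + 2) + Q.card * (Q.card - 1) + d * α + d * Q.card := by
    obtain ⟨e, he⟩ := Nat.exists_eq_add_of_le' hcard
    rw [he, Nat.add_sub_cancel]
    nlinarith
  omega

end MP60829e.HE
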