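import Pool.Agent.Lib.MP_60829e_nt.HE.CoreW
import Pool.Agent.Lib.MP_60829e_nt.HE.CountW
import Pool.Agent.Lib.MP_60829e_nt.HD.Fin

/-! # The theorem on the values of polynomials with few variables of high degree -/

open MvPolynomial Module

namespace MP60829e.HE

open MP60829e.ST (Qa Lsp Lt)
open MP60829e.HD

theorem freeW_zero (M : Set (ℕ →₀ ℕ)) (hM2 : ∀ a ∈ M, 2 ≤ a.degree) (b0 : ℕ → ℕ) (x : ℕ → ℂ) :
    FreeW M b0 0 x := by
  intro e P hP _
  rw [← MvPolynomial.support_eq_empty, Finset.eq_empty_iff_forall_notMem]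
  intro a ha
  obtain ⟨h1, -, h2⟩ := cls_supp hM2 hP a ha
  have h3 : a = 0 := by
    rw [← Finsupp.support_eq_empty]
    exact Finset.eq_empty_of_forall_notMem fun b hb => absurd (h2 b hb) (Nat.not_lt_zero _)
  rw [h3, map_zero] at h1
  omega

/-- The thresholds. -/
theorem thresholds {c : ℕ → ℕ} (hc : Filter.Tendsto c Filter.atTop Filter.atTop) (F : ℕ → ℕ)
    (hF : F 0 = 0) (G : ℕ → ℕ) (hG : G 0 = 0) : ∃ N : ℕ → ℕ, (∀ d, d ≤ N d) ∧
      ∀ α β d, (α = 0 ∨ N α ≤ β) → (d = 0 ∨ N d ≤ β) → ∃ K T, (∀ b, T ≤ b → 2 * K ≤ c b) ∧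
        (K = 0 ∨ α + 2 * T + 2 * K * T ≤ β + 1) ∧ F α + d * α + d + G d ≤ K := by
  obtain ⟨K, hK⟩ : ∃ K : ℕ → ℕ, K = fun m => ∑ a ∈ Finset.range (m + 1), F a + m * m + m +
      ∑ a ∈ Finset.range (m + 1), G a := ⟨_, rfl⟩
  have h1 : ∀ m, ∃ T, ∀ b, T ≤ b → 2 * K m ≤ c b := fun m =>
    Filter.eventually_atTop.1 (hc.eventually_ge_atTop (2 * K m))
  choose T hT using h1
  refine ⟨fun m => m + 2 * T m + 2 * K m * T m, fun d => ?_, fun α β d hα hd => ?_⟩
  · dsimp only
    omega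
  · dsimp only at hα hd
    have h2 : ∀ m, α ≤ m → d ≤ m → F α + d * α + d + G d ≤ K m := by
      intro m h3 h4
      have h5 : F α ≤ ∑ a ∈ Finset.range (m + 1), F a :=
        Finset.single_le_sum (f := F) (fun _ _ => Nat.zero_le _) (Finset.mem_range.2 (by omega))
      have h6 : G d ≤ ∑ a ∈ Finset.range (m + 1), G a :=
        Finset.single_le_sum (f := G) (fun _ _ => Nat.zero_le _) (Finset.mem_range.2 (by omega))
      have h7 : d * α ≤ m * m := Nat.mul_le_mul h4 h3
      rw [hK]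
      dsimp only
      omega
    by_cases h3 : α = 0 ∧ d = 0
    · obtain ⟨rfl, rfl⟩ := h3
      exact ⟨0, 0, fun b _ => Nat.zero_le _, Or.inl rfl, by omega⟩
    · rcases le_total α d with h4 | h4
      · have h5 := hd.resolve_left (by omega)
        exact ⟨K d, T d, hT d, Or.inr (by omega), h2 d h4 le_rfl⟩
      · have h5 := hα.resolve_left (by omega)
        exact ⟨K α, T α, hT α, Or.inr (by omega), h2 α le_rfl h4⟩

/-- Rows over the algebraic numbers. -/
theorem hw {lam : ℕ → ℂ} (hlam : LinearIndependent Qa lam) (hlog : ∀ i, lam i ∈ Lsp)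
    {M : Set (ℕ →₀ ℕ)} (hM2 : ∀ a ∈ M, 2 ≤ a.degree)
    (hM : ∀ a ∈ M, ∀ b ≤ a, 2 ≤ b.degree → b ∈ M)
    (hfin : ∀ n, {a : ℕ →₀ ℕ | a ∈ M ∧ ∀ b ∈ a.support, b < n}.Finite) {b0 : ℕ → ℕ}
    (hb0 : ∀ d, d ≤ b0 d) (j : ℕ → ℕ) (hj : ∀ b, 2 * b + 2 ≤ j b) (thr : ℕ → ℕ)
    (hcount : ∀ al be, (al = 0 ∨ thr al ≤ be) → ∀ Q ⊆ Finset.Ico al (be + 1), be ∈ Q →
      ∀ d, (d = 0 ∨ b0 d ≤ be) → ∃ B ⊆ Q,
      ∑ c ∈ Q, (Finset.Ico al c \ Q).card + NM M (Finset.range al ∪ Q) +
        (d * (Finset.range al ∪ Q).card + (S3 d).card) + B.card * (B.card + 1) + 2 ≤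
        ∑ b ∈ B, j b) :
    ∃ H : (b : ℕ) → (Fin b × ℕ → Qa) → MvPolynomial (Fin (j b)) Qa, (∀ b y, H b y ≠ 0) ∧
      ∀ V : ℕ × ℕ → Qa,
        (∀ b, eval (fun t : Fin (j b) => V (b, t)) (H b fun p => V (p.1, p.2)) ≠ 0) →
        ∀ n, Free M1 n (val lam j V) ∧ FreeW M b0 n (val lam j V) := by
  classical
  have : Infinite Qa := Infinite.of_injective (Nat.cast : ℕ → Qa) Nat.cast_injective
  have hM1 : IsLowerSet M1 := by
    intro a b hab ha
    have h1 : a.degree ≤ 1 := ha
    show b.degree ≤ 1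
    exact (Finsupp.degree_mono hab).trans h1
  have hfin1 : ∀ n, {a : ℕ →₀ ℕ | a ∈ M1 ∧ ∀ b ∈ a.support, b < n}.Finite := by
    intro n
    refine (Finset.finite_toSet ((Finset.range 2).biUnion fun k =>
      Finset.finsuppAntidiag (Finset.range n) k)).subset ?_
    rintro a ⟨ha1, ha2⟩
    have ha1' : a.degree ≤ 1 := ha1
    rw [Finset.mem_coe, Finset.mem_biUnion]
    refine ⟨a.degree, Finset.mem_range.2 (by omega), ?_⟩
    rw [Finset.mem_finsuppAntidiag]
    have h3 : a.support ⊆ Finset.range n := fun b hb => Finset.mem_range.2 (ha2 b hb)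
    refine ⟨?_, h3⟩
    rw [Finsupp.degree_apply]
    exact (Finset.sum_subset h3 fun b _ hb => Finsupp.notMem_support_iff.1 hb).symm
  refine seq (k := Qa) (j := j) (Good := fun n V => Free M1 n (val lam j V) ∧
    FreeW M b0 n (val lam j V)) (fun V => ⟨free_zero M1 _, freeW_zero M hM2 b0 _⟩) thr ?_
  intro α β V hαβ h hprev
  obtain ⟨H, hH, hvars, hgood⟩ := hprev
  have h1 : GenFree M1 lam j V α (β + 1) := by
    refine core hlam hlog hM1 hfin1 j V hαβ
      ⟨H, hH, hvars, fun V' h1 h2 => (hgood V' h1 h2).1⟩ fun Q hQ hβ =>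
        ⟨Q, Finset.Subset.refl _, countM1 hj Q hQ hβ⟩
  have h2 : GenFreeW M b0 lam j V α (β + 1) :=
    coreW hlam hlog hM2 hM hfin hb0 j V hαβ h1
      ⟨H, hH, hvars, fun V' h1 h2 => (hgood V' h1 h2).2⟩ fun Q hQ hβ d hd =>
        hcount α β h Q hQ hβ d hd
  obtain ⟨H1, hH1, hvars1, hgood1⟩ := h1
  obtain ⟨H2, hH2, hvars2, hgood2⟩ := h2
  refine ⟨H1 * H2, mul_ne_zero hH1 hH2, fun p hp => ?_, fun V' h1 h2 => ?_⟩
  · rcases Finset.mem_union.1 (vars_mul _ _ hp) with h3 | h3
    · exact hvars1 p h3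
    · exact hvars2 p h3
  · rw [map_mul] at h2
    exact ⟨hgood1 V' h1 (left_ne_zero_of_mul h2), hgood2 V' h1 (right_ne_zero_of_mul h2)⟩

/-- The linear form with the coefficients `w`. -/
noncomputable def lin (w : ℕ →₀ Qa) : MvPolynomial ℕ Qa := w.sum fun b c => C c * X b

/-- The conclusion: the value of a polynomial `q + g (W_1, …, W_d)` is a linear form in
logarithms only if its degree is at most one. -/
theorem of_freeW {M : Set (ℕ →₀ ℕ)} {b0 : ℕ → ℕ} {x : ℕ → ℂ} (hx : ∀ i, x i ∈ Lsp)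
    (h : ∀ n, FreeW M b0 n x) {d : ℕ} (w : Fin d → ℕ →₀ Qa) (q : MvPolynomial ℕ Qa)
    (g : MvPolynomial (Fin d) Qa) (hw : ∀ i, ∀ b ∈ (w i).support, b0 d ≤ b)
    (hq : ∀ a ∈ q.support, 2 ≤ a.degree → a ∈ M) (hg : g.totalDegree ≤ d)
    (hP : aeval x (q + aeval (fun i => lin (w i)) g) ∈ Lt) :
    (q + aeval (fun i => lin (w i)) g).totalDegree ≤ 1 := by
  classical
  -- the number of variables
  obtain ⟨n, hn1, hn2⟩ : ∃ n, (∀ a ∈ q.support, ∀ b ∈ a.support, b < n) ∧
      ∀ i, (w i).support ⊆ Finset.range n := by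
    refine ⟨(q.support.biUnion fun a => a.support).sup id +
      (Finset.univ.biUnion fun i => (w i).support).sup id + 1, fun a ha b hb => ?_,
      fun i b hb => ?_⟩
    · have h1 : b ≤ (q.support.biUnion fun a => a.support).sup id :=
        Finset.le_sup (f := id) (Finset.mem_biUnion.2 ⟨a, ha, hb⟩)
      omega
    · have h1 : b ≤ (Finset.univ.biUnion fun i => (w i).support).sup id :=
        Finset.le_sup (f := id) (Finset.mem_biUnion.2 ⟨i, Finset.mem_univ _, hb⟩)
      rw [Finset.mem_range]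
      omega
  have hlf : ∀ i, lin (w i) = lf (w i) n := by
    intro i
    unfold lin lf
    refine Finsupp.sum_of_support_subset _ (hn2 i) _ fun b _ => ?_
    rw [C_0, zero_mul]
  have hlf' : (fun i => lin (w i)) = fun i => lf (w i) n := funext hlf
  rw [hlf'] at hP ⊢
  -- the part of degree at least two
  have hdeg : ∀ {σ : Type} (f : MvPolynomial σ Qa), ∀ a ∈ f.support, a.degree ≤ f.totalDegree := by
    intro σ f a ha
    rw [Finsupp.degree_apply]
    exact le_totalDegree ha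
  obtain ⟨P', hP'⟩ : ∃ P' : MvPolynomial ℕ Qa, P' = hi2 q + aeval (fun i => lf (w i) n) (hi2 g) :=
    ⟨_, rfl⟩
  have hcls : P' ∈ Cls M b0 n (q.totalDegree + g.totalDegree) := by
    refine ⟨d, fun i => w i, hi2 q, hi2 g, fun i b hb => ?_, fun a ha => ?_, fun a ha => ?_, hP'⟩
    · by_contra h1
      have h2 := hw i b (Finsupp.mem_support_iff.2 h1)
      omega
    · obtain ⟨h1, h2⟩ := mem_hi2 ha
      have h3 := hdeg q a h2
      exact ⟨hq a h2 h1, by omega, hn1 a h2⟩
    · obtain ⟨h1, h2⟩ := mem_hi2 ha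
      have h3 := hdeg g a h2
      exact ⟨h1, by omega, by omega⟩
  have hlow : ∀ a ∈ (q + aeval (fun i => lf (w i) n) g - P').support,
      a.degree ≤ 1 := by
    intro a ha
    have h1 : q + aeval (fun i => lf (w i) n) g - P' =
        (q - hi2 q) + aeval (fun i => lf (w i) n) (g - hi2 g) := by
      rw [hP', map_sub]
      ring
    rw [h1] at ha
    rcases Finset.mem_union.1 (support_add ha) with h2 | h2
    · exact (mem_lo2 h2).1
    · obtain ⟨⟨c, hc, hc'⟩, -⟩ := mem_aeval_lf _ _ h2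
      rw [← hc']
      exact (mem_lo2 hc).1
  have hlow' : aeval x (q + aeval (fun i => lf (w i) n) g - P') ∈ Lt := by
    rw [aeval_mon]
    refine Submodule.sum_mem _ fun a ha => ?_
    have h1 := hlow a ha
    have h2 : mon a x ∈ Lt := by
      by_cases h0 : a = 0
      · subst h0
        have h3 : mon (0 : ℕ →₀ ℕ) x = 1 := by
          unfold mon
          rw [Finsupp.support_zero, Finset.prod_empty]
        rw [h3]
        exact one_mem_Lt
      · obtain ⟨i, hi⟩ : ∃ i, a i ≠ 0 := by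
          by_contra hcon
          push Not at hcon
          exact h0 (Finsupp.ext hcon)
        have hle : Finsupp.single i 1 ≤ a := Finsupp.single_le_iff.2 (Nat.one_le_iff_ne_zero.2 hi)
        obtain ⟨c, hc⟩ : ∃ c, a = c + Finsupp.single i 1 := ⟨a - Finsupp.single i 1,
          (tsub_add_cancel_of_le hle).symm⟩
        have hc0 : c = 0 := by
          have h3 : a.degree = c.degree + 1 := by rw [hc, map_add, Finsupp.degree_single]
          have h4 : c.degree = 0 := by omega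
          exact (Finsupp.degree_eq_zero_iff c).1 h4
        rw [hc0, zero_add] at hc
        have h3 : mon a x = x i := by
          unfold mon
          rw [hc, Finsupp.support_single _ one_ne_zero, Finset.prod_singleton,
            Finsupp.single_eq_same, pow_one]
        rw [h3]
        exact Lsp_le_Lt (hx i)
    exact Submodule.smul_mem _ (coeff a (q + aeval (fun i => lf (w i) n) g - P')) h2
  have h0 : P' = 0 := by
    refine h n _ P' hcls ?_
    have h1 : aeval x P' = aeval x (q + aeval (fun i => lf (w i) n) g) -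
        aeval x (q + aeval (fun i => lf (w i) n) g - P') := by
      rw [map_sub]
      ring
    rw [h1]
    exact Submodule.sub_mem _ hP hlow'
  rw [h0, sub_zero] at hlow
  refine Finset.sup_le fun a ha => ?_
  have h1 := hlow a ha
  rw [Finsupp.degree_apply] at h1
  exact h1

end MP60829e.HE
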