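import Pool.Agent.Lib.MP_60829e_nt.HE.Cls

/-! # The universal polynomial of the class -/

open MvPolynomial

namespace MP60829e.HE

open MP60829e.ST (Qa Lsp Lt)
open MP60829e.SB
open MP60829e.HD

/-- The exponents of the monomials of degree at least `2` and at most `d` in `d` variables. -/
def S3 (d : ℕ) : Finset (Fin d →₀ ℕ) :=
  (Finset.Icc 2 d).biUnion fun k => Finset.finsuppAntidiag Finset.univ k

theorem mem_S3 {d : ℕ} {a : Fin d →₀ ℕ} : a ∈ S3 d ↔ 2 ≤ a.degree ∧ a.degree ≤ d := by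
  unfold S3
  rw [Finset.mem_biUnion]
  have h1 : ∀ a : Fin d →₀ ℕ, Finset.univ.sum a = a.degree := fun a => by
    rw [Finsupp.degree_eq_sum]
  constructor
  · rintro ⟨k, hk, hk'⟩
    rw [Finset.mem_finsuppAntidiag, h1] at hk'
    rw [Finset.mem_Icc] at hk
    rw [hk'.1]
    exact hk
  · intro h
    refine ⟨a.degree, Finset.mem_Icc.2 h, ?_⟩
    rw [Finset.mem_finsuppAntidiag, h1]
    exact ⟨rfl, Finset.subset_univ _⟩

/-- The parameters. -/
abbrev ZW (P : Finset (Σ _ : ℕ, ℕ)) (S : Finset (ℕ →₀ ℕ)) (W : Finset ℕ) (d : ℕ) : Type :=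
  {p // p ∈ P} ⊕ ({a // a ∈ S} ⊕ ((Fin d × {b // b ∈ W}) ⊕ {a // a ∈ S3 d}))

variable {P : Finset (Σ _ : ℕ, ℕ)} {S : Finset (ℕ →₀ ℕ)} {W : Finset ℕ} {d n : ℕ}

/-- The variables. -/
noncomputable def XW (P : Finset (Σ _ : ℕ, ℕ)) (S : Finset (ℕ →₀ ℕ)) (W : Finset ℕ) (d n i : ℕ) :
    MvPolynomial (ZW P S W d ⊕ Fin n) ℂ := if h : i < n then X (Sum.inr ⟨i, h⟩) else 0

/-- The new variables. -/
noncomputable def YW (P : Finset (Σ _ : ℕ, ℕ)) (S : Finset (ℕ →₀ ℕ)) (W : Finset ℕ) (d n i : ℕ) :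
    MvPolynomial (ZW P S W d ⊕ Fin n) ℂ :=
  XW P S W d n i + ∑ p : {p // p ∈ P},
    if p.1.1 = i then X (Sum.inl (Sum.inl p)) * XW P S W d n p.1.2 else 0

/-- The universal polynomial. -/
noncomputable def GW (P : Finset (Σ _ : ℕ, ℕ)) (S : Finset (ℕ →₀ ℕ)) (W : Finset ℕ) (d n : ℕ) :
    MvPolynomial (ZW P S W d ⊕ Fin n) ℂ :=
  ∑ a : {a // a ∈ S}, X (Sum.inl (Sum.inr (Sum.inl a))) * mon a.1 (YW P S W d n) +
    ∑ a : {a // a ∈ S3 d}, X (Sum.inl (Sum.inr (Sum.inr (Sum.inr a)))) *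
      ∏ i, (∑ b : {b // b ∈ W}, X (Sum.inl (Sum.inr (Sum.inr (Sum.inl (i, b))))) *
        YW P S W d n b.1) ^ a.1 i

/-- The new coordinates. -/
noncomputable def yW (z : ZW P S W d → Qa) (x : Fin n → ℂ) (i : ℕ) : ℂ :=
  yy (P := P) (S := ∅) (Sum.elim (fun p => z (Sum.inl p)) fun _ => 0) x i

theorem eval_XW (z : ZW P S W d → Qa) (x : Fin n → ℂ) (i : ℕ) :
    eval (pv z x) (XW P S W d n i) = ext x i := by
  unfold XW HD.ext
  by_cases h : i < n
  · rw [dif_pos h, dif_pos h, eval_X]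
    rfl
  · rw [dif_neg h, dif_neg h, map_zero]

theorem eval_YW (z : ZW P S W d → Qa) (x : Fin n → ℂ) (i : ℕ) :
    eval (pv z x) (YW P S W d n i) = yW z x i := by
  unfold YW yW yy
  rw [map_add, eval_XW, map_sum]
  congr 1
  refine Finset.sum_congr rfl fun p _ => ?_
  by_cases h : p.1.1 = i
  · rw [if_pos h, if_pos h, map_mul, eval_X, eval_XW]
    rfl
  · rw [if_neg h, if_neg h, map_zero]

theorem eval_GW (z : ZW P S W d → Qa) (x : Fin n → ℂ) :
    eval (pv z x) (GW P S W d n) =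
      ∑ a : {a // a ∈ S}, (z (Sum.inr (Sum.inl a)) : ℂ) * mon a.1 (yW z x) +
      ∑ a : {a // a ∈ S3 d}, (z (Sum.inr (Sum.inr (Sum.inr a))) : ℂ) *
        ∏ i, (∑ b : {b // b ∈ W}, (z (Sum.inr (Sum.inr (Sum.inl (i, b)))) : ℂ) *
          yW z x b.1) ^ a.1 i := by
  have hmon : ∀ a : ℕ →₀ ℕ, eval (pv z x) (mon a (YW P S W d n)) = mon a (yW z x) := by
    intro a
    unfold mon
    rw [map_prod]
    exact Finset.prod_congr rfl fun i _ => by rw [map_pow, eval_YW]
  unfold GW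
  rw [map_add, map_sum, map_sum]
  congr 1
  · refine Finset.sum_congr rfl fun a _ => ?_
    rw [map_mul, eval_X, hmon]
    rfl
  · refine Finset.sum_congr rfl fun a _ => ?_
    rw [map_mul, eval_X, map_prod]
    congr 1
    refine Finset.prod_congr rfl fun i _ => ?_
    rw [map_pow, map_sum]
    congr 1
    refine Finset.sum_congr rfl fun b _ => ?_
    rw [map_mul, eval_X, eval_YW]
    rfl

/-- The value at a point with few nonzero coordinates. -/
theorem aeval_cut {M : Set (ℕ →₀ ℕ)}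
    (hfin : ∀ n, {a : ℕ →₀ ℕ | a ∈ M ∧ ∀ b ∈ a.support, b < n}.Finite) {F : MvPolynomial ℕ Qa}
    (hF : SuppIn M n F) (W : Finset ℕ) (y : ℕ → ℂ) :
    aeval (fun i => if i ∈ W then y i else 0) F =
      ∑ a ∈ SW M W, ((coeff a F : Qa) : ℂ) * mon a y := by
  classical
  rw [aeval_mon]
  have h2 : ∀ a ∈ F.support, ((coeff a F : Qa) : ℂ) *
      mon a (fun i => if i ∈ W then y i else 0) =
      if a.support ⊆ W then ((coeff a F : Qa) : ℂ) * mon a y else 0 := by
    intro a _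
    by_cases h : a.support ⊆ W
    · rw [if_pos h]
      congr 1
      refine Finset.prod_congr rfl fun i hi => ?_
      dsimp only
      rw [if_pos (h hi)]
    · rw [if_neg h]
      obtain ⟨i, hi, hi'⟩ := Finset.not_subset.1 h
      have h3 : mon a (fun i => if i ∈ W then y i else 0) = 0 := by
        unfold mon
        refine Finset.prod_eq_zero hi ?_
        dsimp only
        rw [if_neg hi']
        exact zero_pow (Finsupp.mem_support_iff.1 hi)
      rw [h3, mul_zero]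
  rw [Finset.sum_congr rfl h2, ← Finset.sum_filter]
  refine Finset.sum_subset ?_ ?_
  · intro a ha
    rw [Finset.mem_filter] at ha
    exact (mem_SW hfin _ a).2 ⟨(hF a ha.1).1, ha.2⟩
  · intro a ha ha'
    rw [Finset.mem_filter, not_and] at ha'
    have h3 : a ∉ F.support := fun h4 => ha' h4 ((mem_SW hfin _ a).1 ha).2
    rw [notMem_support_iff.1 h3]
    have h4 : (((0 : Qa) : Qa) : ℂ) = 0 := map_zero (algebraMap Qa ℂ)
    rw [h4, zero_mul]

/-- The data give the value of the universal polynomial. -/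
theorem form2 {M : Set (ℕ →₀ ℕ)}
    (hfin : ∀ n, {a : ℕ →₀ ℕ | a ∈ M ∧ ∀ b ∈ a.support, b < n}.Finite)
    {w : Fin d → ℕ → Qa} {q : MvPolynomial ℕ Qa} {g : MvPolynomial (Fin d) Qa}
    (hq : SuppIn M n q) (hg : ∀ a ∈ g.support, 2 ≤ a.degree ∧ a.degree ≤ d) {W : Finset ℕ}
    (hW : W ⊆ Finset.range n) (z : ZW P (SW M W) W d → Qa)
    (hz1 : ∀ a, z (Sum.inr (Sum.inl a)) = coeff a.1 q)
    (hz2 : ∀ i b, z (Sum.inr (Sum.inr (Sum.inl (i, b)))) = w i b.1)
    (hz3 : ∀ a, z (Sum.inr (Sum.inr (Sum.inr a))) = coeff a.1 g) (x : Fin n → ℂ) :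
    eval (pv z x) (GW P (SW M W) W d n) =
      aeval (fun i => if i ∈ W then yW z x i else 0) (q + aeval (fun i => lf (w i) n) g) := by
  classical
  rw [eval_GW, map_add, aeval_cut hfin hq]
  congr 1
  · rw [← Finset.sum_coe_sort (SW M W) (fun a => ((coeff a q : Qa) : ℂ) * mon a (yW z x))]
    exact Finset.sum_congr rfl fun a _ => by rw [hz1]
  · obtain ⟨v, hv⟩ : ∃ v : ℕ → ℂ, v = fun i => if i ∈ W then yW z x i else 0 := ⟨_, rfl⟩
    rw [← hv]
    have h1 : ∀ i, aeval v (lf (w i) n) = ∑ b : {b // b ∈ W}, ((w i b.1 : Qa) : ℂ) *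
        yW z x b.1 := by
      intro i
      unfold lf
      rw [map_sum, Finset.sum_coe_sort W (fun b => ((w i b : Qa) : ℂ) * yW z x b)]
      rw [← Finset.sum_subset hW]
      · refine Finset.sum_congr rfl fun b hb => ?_
        rw [map_mul, aeval_X, hv]
        dsimp only
        rw [if_pos hb]
        congr 1
        exact algHom_C _ _
      · intro b _ hb
        rw [map_mul, aeval_X, hv]
        dsimp only
        rw [if_neg hb, mul_zero]
    have h2 : aeval v (aeval (fun i => lf (w i) n) g) =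
        aeval (fun i => ∑ b : {b // b ∈ W}, ((w i b.1 : Qa) : ℂ) * yW z x b.1) g := by
      have h3 : (aeval v).comp (aeval fun i => lf (w i) n) =
          aeval (fun i => ∑ b : {b // b ∈ W}, ((w i b.1 : Qa) : ℂ) * yW z x b.1) := by
        refine MvPolynomial.algHom_ext fun i => ?_
        rw [AlgHom.comp_apply, aeval_X, aeval_X, h1]
      rw [← h3]
      rfl
    have h4 : g.support ⊆ S3 d := fun a ha => mem_S3.2 (hg a ha)
    rw [h2, aeval_def, eval₂_eq', Finset.sum_subset h4 (fun a _ ha => by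
      rw [notMem_support_iff.1 ha, map_zero, zero_mul]), ← Finset.sum_coe_sort (S3 d)
      (fun a => (algebraMap Qa ℂ) (coeff a g) *
        ∏ i, (∑ b : {b // b ∈ W}, ((w i b.1 : Qa) : ℂ) * yW z x b.1) ^ a i)]
    refine Finset.sum_congr rfl fun a _ => ?_
    rw [hz3]
    simp only [hz2]
    rfl

/-- The form of a relation with dependent derivatives. -/
theorem form3 {q : MvPolynomial ℕ Qa} {al e : ℕ}
    (hq : ∀ a ∈ q.support, a.degree ≤ e ∧ ∀ b ∈ a.support, b < n) {Q : Finset ℕ}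
    (hQ : Q ⊆ Finset.Ico al n) (ρ : ℕ → ℕ → Qa) (hρ : ∀ b ∈ Finset.Ico al n, b ∉ Q →
      pderiv b q = ∑ c ∈ Q.filter (b < ·), C (ρ b c) * pderiv c q) {S : Finset (ℕ →₀ ℕ)}
    {W : Finset ℕ} (z : ZW (PR al Q) S W d → Qa) (hz : ∀ p, z (Sum.inl p) = ρ p.1.2 p.1.1)
    (x : Fin n → ℂ) :
    aeval (HD.ext x) q =
      aeval (fun i => if i ∈ Finset.range al ∪ Q then yW z x i else 0) q := by
  classical
  have hfin : ∀ n, {a : ℕ →₀ ℕ | a ∈ {a : ℕ →₀ ℕ | a.degree ≤ e} ∧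
      ∀ b ∈ a.support, b < n}.Finite := by
    intro n
    refine (Finset.finite_toSet ((Finset.range (e + 1)).biUnion fun k =>
      Finset.finsuppAntidiag (Finset.range n) k)).subset ?_
    rintro a ⟨ha1, ha2⟩
    rw [Set.mem_ofPred_eq] at ha1
    rw [Finset.mem_coe, Finset.mem_biUnion]
    refine ⟨a.degree, Finset.mem_range.2 (by omega), ?_⟩
    rw [Finset.mem_finsuppAntidiag]
    have h3 : a.support ⊆ Finset.range n := fun b hb => Finset.mem_range.2 (ha2 b hb)
    refine ⟨?_, h3⟩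
    rw [Finsupp.degree_apply]
    exact (Finset.sum_subset h3 fun b _ hb => Finsupp.notMem_support_iff.1 hb).symm
  rw [aeval_cut hfin (n := n) (F := q) hq (Finset.range al ∪ Q) (yW z x)]
  exact form hfin hq hQ ρ hρ (S := ∅) (Sum.elim (fun p => z (Sum.inl p)) fun _ => 0)
    (fun p => hz p) x

end MP60829e.HE
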