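import Pool.Agent.Lib.MP_60829e_nt.HE.FinW

/-! # The theorem with rational rows -/

open MvPolynomial Module

namespace MP60829e.HE

open MP60829e.ST (Qa Lsp Lt)
open MP60829e.HD

/-- The polynomials `q + g (W_1, …, W_d)` with the monomials of `q` of degree at least `2` in `M`,
with `g` of degree at most `d` and with linear forms `W_i` in the variables `X_b`, `b0 d ≤ b`, have
their values in `Lt` only if their degree is at most `1`. -/
def Gen (lam : ℕ → ℂ) (M : Set (ℕ →₀ ℕ)) (j b0 : ℕ → ℕ) : Prop :=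
  ∃ H : (b : ℕ) → (Fin b → ℕ → ℚ) → MvPolynomial (Fin (j b)) ℚ, (∀ b y, H b y ≠ 0) ∧
    ∀ x : ℕ → ℕ → ℚ, (∀ b, eval (fun t : Fin (j b) => x b t) (H b fun i => x i) ≠ 0) →
      ∀ (q : MvPolynomial ℕ Qa) (d : ℕ) (g : MvPolynomial (Fin d) Qa) (w : Fin d → ℕ →₀ Qa),
        (∀ a ∈ q.support, 2 ≤ a.degree → a ∈ M) → g.totalDegree ≤ d →
        (∀ i, ∀ b ∈ (w i).support, b0 d ≤ b) →
        aeval (fun b => ∑ t : Fin (j b), (x b t : ℂ) * lam t)
          (q + aeval (fun i => (w i).sum fun b c => C c * X b) g) ∈ Lt →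
        (q + aeval (fun i => (w i).sum fun b c => C c * X b) g).totalDegree ≤ 1

theorem gen_of_count {M : Set (ℕ →₀ ℕ)} (hM2 : ∀ a ∈ M, 2 ≤ a.degree)
    (hM : ∀ a ∈ M, ∀ b ≤ a, 2 ≤ b.degree → b ∈ M)
    (hfin : ∀ n, {a : ℕ →₀ ℕ | a ∈ M ∧ ∀ b ∈ a.support, b < n}.Finite) {b0 : ℕ → ℕ}
    (hb0 : ∀ d, d ≤ b0 d) (j : ℕ → ℕ) (hj : ∀ b, 2 * b + 2 ≤ j b) (thr : ℕ → ℕ)
    (hcount : ∀ al be, (al = 0 ∨ thr al ≤ be) → ∀ Q ⊆ Finset.Ico al (be + 1), be ∈ Q →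
      ∀ d, (d = 0 ∨ b0 d ≤ be) → ∃ B ⊆ Q,
      ∑ c ∈ Q, (Finset.Ico al c \ Q).card + NM M (Finset.range al ∪ Q) +
        (d * (Finset.range al ∪ Q).card + (S3 d).card) + B.card * (B.card + 1) + 2 ≤
        ∑ b ∈ B, j b)
    {lam : ℕ → ℂ} (halg : ∀ i, IsAlgebraic ℚ (Complex.exp (lam i)))
    (hli : LinearIndependent ℚ lam) : Gen lam M j b0 := by
  have hlam := FC.baker lam halg hli
  have hlog : ∀ i, lam i ∈ Lsp := fun i => Submodule.subset_span (halg i)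
  obtain ⟨H, hH0, hH⟩ := hw hlam hlog hM2 hM hfin hb0 j hj thr hcount
  choose g hg0 hg using fun (b : ℕ) (y : Fin b → ℕ → ℚ) =>
    FG.exists_rat (H b fun p => ((y p.1 p.2 : ℚ) : Qa)) (hH0 b _)
  refine ⟨g, hg0, fun x hx q d g w hq hgd hwd hP => ?_⟩
  have h1 := hH (fun p => ((x p.1 p.2 : ℚ) : Qa)) fun b => hg b _ _ (hx b)
  have h2 : val lam j (fun p => ((x p.1 p.2 : ℚ) : Qa)) =
      fun b => ∑ t : Fin (j b), (x b t : ℂ) * lam t := by
    funext b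
    rw [Fin.sum_univ_eq_sum_range (fun t => (x b t : ℂ) * lam t) (j b)]
    refine Finset.sum_congr rfl fun t _ => ?_
    rw [Algebra.smul_def]
    congr 1
  have hmem : ∀ i, val lam j (fun p => ((x p.1 p.2 : ℚ) : Qa)) i ∈ Lsp := fun i =>
    Submodule.sum_mem _ fun l _ => Submodule.smul_mem _ _ (hlog l)
  rw [← h2] at hP
  exact of_freeW hmem (fun n => (h1 n).2) w q g hwd hq hgd hP

/-- The theorem for sets of monomials with few elements of degree at least `3`. -/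
theorem main3 {M : Set (ℕ →₀ ℕ)} (hM2 : ∀ a ∈ M, 2 ≤ a.degree)
    (hM : ∀ a ∈ M, ∀ b ≤ a, 2 ≤ b.degree → b ∈ M)
    (hfin : ∀ n, {a : ℕ →₀ ℕ | a ∈ M ∧ ∀ b ∈ a.support, b < n}.Finite) {m j : ℕ → ℕ}
    (hm : Monotone m) (hmb : ∀ b, mb {a | a ∈ M ∧ 3 ≤ a.degree} b ≤ m b)
    (hj : ∀ b, 2 * b + 5 + 2 * m b ≤ j b)
    (hj' : Filter.Tendsto (fun b => j b - (2 * b + 2 * m b)) Filter.atTop Filter.atTop) :
    ∃ b0 : ℕ → ℕ, ∀ lam : ℕ → ℂ, (∀ i, IsAlgebraic ℚ (Complex.exp (lam i))) →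
      LinearIndependent ℚ lam → Gen lam M j b0 := by
  classical
  obtain ⟨c, hc⟩ : ∃ c : ℕ → ℕ, c = fun b => j b - (2 * b + 2 * m b) - 5 := ⟨_, rfl⟩
  have hc' : Filter.Tendsto c Filter.atTop Filter.atTop := by
    rw [hc]
    rw [Filter.tendsto_atTop] at hj' ⊢
    intro k
    refine (hj' (k + 5)).mono fun b hb => ?_
    omega
  have hjc : ∀ b, 2 * b + 5 + 2 * m b + c b ≤ j b := fun b => by
    have h1 := hj b
    rw [hc]
    dsimp only
    omega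
  obtain ⟨N, hN, hN'⟩ := thresholds hc'
    (fun α => {a | a ∈ {a | a ∈ M ∧ 3 ≤ a.degree} ∧ a.support ⊆ Finset.range α}.ncard +
      α * (α + 1)) (by
    have h5 : {a | a ∈ {a | a ∈ M ∧ 3 ≤ a.degree} ∧ a.support ⊆ Finset.range 0} = ∅ := by
      rw [Set.eq_empty_iff_forall_notMem]
      rintro a ⟨ha1, ha⟩
      rw [Finset.range_zero, Finset.subset_empty, Finsupp.support_eq_empty] at ha
      have h6 := ha1.2
      rw [ha, map_zero] at h6
      omega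
    rw [h5, Set.ncard_empty]) (fun d => (S3 d).card) rfl
  refine ⟨N, fun lam halg hli => gen_of_count hM2 hM hfin hN j (fun b => by
    have := hj b
    omega) N ?_ halg hli⟩
  intro al be hal Q hQ hbe d hd
  obtain ⟨K, T, h1, h2, h3⟩ := hN' al be d hal hd
  exact countW3 M hfin hM2 hm hmb hjc h1 h2 h3 hQ hbe

/-- The theorem for general sets of monomials. -/
theorem mainM {M : Set (ℕ →₀ ℕ)} (hM2 : ∀ a ∈ M, 2 ≤ a.degree)
    (hM : ∀ a ∈ M, ∀ b ≤ a, 2 ≤ b.degree → b ∈ M)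
    (hfin : ∀ n, {a : ℕ →₀ ℕ | a ∈ M ∧ ∀ b ∈ a.support, b < n}.Finite) {m j : ℕ → ℕ}
    (hmb : ∀ b, mb M b ≤ m b) (hj : ∀ b, 2 * b + 4 + m b ≤ j b)
    (hj' : Filter.Tendsto (fun b => j b - (2 * b + m b)) Filter.atTop Filter.atTop) :
    ∃ b0 : ℕ → ℕ, ∀ lam : ℕ → ℂ, (∀ i, IsAlgebraic ℚ (Complex.exp (lam i))) →
      LinearIndependent ℚ lam → Gen lam M j b0 := by
  classical
  obtain ⟨c, hc⟩ : ∃ c : ℕ → ℕ, c = fun b => j b - (2 * b + m b) - 4 := ⟨_, rfl⟩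
  have hc' : Filter.Tendsto c Filter.atTop Filter.atTop := by
    rw [hc]
    rw [Filter.tendsto_atTop] at hj' ⊢
    intro k
    refine (hj' (k + 4)).mono fun b hb => ?_
    omega
  have hjc : ∀ b, mb M b + 2 * b + 4 + c b ≤ j b := fun b => by
    have h1 := hj b
    have h2 := hmb b
    rw [hc]
    dsimp only
    omega
  obtain ⟨N, hN, hN'⟩ := thresholds hc'
    (fun α => {a | a ∈ M ∧ a.support ⊆ Finset.range α}.ncard) (by
    have h5 : {a | a ∈ M ∧ a.support ⊆ Finset.range 0} = ∅ := by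
      rw [Set.eq_empty_iff_forall_notMem]
      rintro a ⟨ha1, ha⟩
      rw [Finset.range_zero, Finset.subset_empty, Finsupp.support_eq_empty] at ha
      have h6 := hM2 a ha1
      rw [ha, map_zero] at h6
      omega
    rw [h5, Set.ncard_empty]) (fun d => (S3 d).card) rfl
  refine ⟨N, fun lam halg hli => gen_of_count hM2 hM hfin hN j (fun b => by
    have := hj b
    omega) N ?_ halg hli⟩
  intro al be hal Q hQ hbe d hd
  obtain ⟨K, T, h1, h2, h3⟩ := hN' al be d hal hd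
  exact countWM M hfin hjc h1 h2 h3 hQ hbe

end MP60829e.HE
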