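import Pool.Agent.Lib.MP_60829e_nt.HD.StructL

/-! # The structure of a minimal relation in a class of polynomials -/

open MvPolynomial

namespace MP60829e.HE

open MP60829e.ST (Qa Lsp Lt)
open MP60829e.SB
open MP60829e.HD

/-- A linear form in the numbers `x i` has its value in `Lt`. -/
private theorem lin_mem {n : ℕ} {x : ℕ → ℂ} (hx : ∀ i < n, x i ∈ Lsp) {L : MvPolynomial ℕ Qa}
    (hL : ∀ a ∈ L.support, a.degree = 1 ∧ ∀ b ∈ a.support, b < n) : aeval x L ∈ Lt := by
  classical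
  rw [aeval_mon]
  refine Submodule.sum_mem _ fun a ha => ?_
  obtain ⟨h1, h2⟩ := hL a ha
  have h0 : a ≠ 0 := by
    rintro rfl
    rw [map_zero] at h1
    omega
  obtain ⟨i, hi⟩ : ∃ i, a i ≠ 0 := by
    by_contra hcon
    push Not at hcon
    exact h0 (Finsupp.ext hcon)
  have hle : Finsupp.single i 1 ≤ a := Finsupp.single_le_iff.2 (Nat.one_le_iff_ne_zero.2 hi)
  obtain ⟨c, hc⟩ : ∃ c, a = c + Finsupp.single i 1 := ⟨a - Finsupp.single i 1,
    (tsub_add_cancel_of_le hle).symm⟩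
  have hc0 : c = 0 := by
    have h3 : a.degree = c.degree + 1 := by rw [hc, map_add, Finsupp.degree_single]
    have h4 : c.degree = 0 := by omega
    exact (Finsupp.degree_eq_zero_iff c).1 h4
  rw [hc0, zero_add] at hc
  have h3 : mon a x = x i := by
    unfold mon
    rw [hc, Finsupp.support_single _ one_ne_zero, Finset.prod_singleton,
      Finsupp.single_eq_same, pow_one]
  rw [h3]
  exact Submodule.smul_mem _ (coeff a L) (Lsp_le_Lt (hx i (h2 i (Finsupp.mem_support_iff.2 hi))))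

/-- The key lemma. -/
private theorem key {n : ℕ} {x : ℕ → ℂ} (hx : ∀ i < n, x i ∈ Lsp) (h1 : Free M1 n x)
    {S L P : MvPolynomial ℕ Qa} (hS : S = L + P)
    (hL : ∀ a ∈ L.support, a.degree = 1 ∧ ∀ b ∈ a.support, b < n)
    (hP : aeval x P ∈ Lt → P = 0) {c : Qa} (hc : aeval x S = (c : ℂ)) : S = 0 ∧ c = 0 := by
  classical
  have hval : aeval x P ∈ Lt := by
    have h2 : aeval x P = aeval x S - aeval x L := by rw [hS, map_add]; ring
    rw [h2, hc]
    refine Submodule.sub_mem _ ?_ (lin_mem hx hL)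
    have h3 : (c : ℂ) = c • (1 : ℂ) := by rw [Algebra.smul_def, mul_one]; rfl
    rw [h3]
    exact Submodule.smul_mem _ _ one_mem_Lt
  rw [hP hval, add_zero] at hS
  subst hS
  have h2 : S - C c = 0 := by
    refine h1 _ (fun a ha => ?_) ?_
    · by_cases h3 : a = 0
      · subst h3
        refine ⟨?_, fun b hb => ?_⟩
        · show (0 : ℕ →₀ ℕ).degree ≤ 1
          rw [map_zero]
          omega
        · rw [Finsupp.support_zero] at hb
          exact absurd hb (Finset.notMem_empty b)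
      · rw [mem_support_iff, coeff_sub, coeff_C, if_neg (Ne.symm h3), sub_zero] at ha
        have h4 := hL a (mem_support_iff.2 ha)
        exact ⟨h4.1.le, h4.2⟩
    · rw [map_sub, hc, algHom_C]
      exact sub_self _
  have h3 := sub_eq_zero.1 h2
  have h4 : c = 0 := by
    have h5 : coeff 0 S = 0 := by
      by_contra h6
      have h7 := (hL 0 (mem_support_iff.2 h6)).1
      rw [map_zero] at h7
      omega
    rw [h3, coeff_C, if_pos rfl] at h5
    exact h5
  refine ⟨?_, h4⟩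
  rw [h3, h4, C_0]

/-- The structure of a minimal relation. The class `𝒞` is a union of the levels `𝒞 e`, and a
combination of the derivatives of an element of level `e + 1` is a linear form plus an element of
level `e`. -/
theorem structA {𝒞 : ℕ → Set (MvPolynomial ℕ Qa)} {n : ℕ} (h00 : ∀ P ∈ 𝒞 0, P = 0)
    (hD : ∀ e, ∀ P ∈ 𝒞 (e + 1), ∀ (s : Finset ℕ) (t : ℕ → Qa), ∃ L P' : MvPolynomial ℕ Qa,
      ∑ c ∈ s, C (t c) * pderiv c P = L + P' ∧
        (∀ a ∈ L.support, a.degree = 1 ∧ ∀ b ∈ a.support, b < n) ∧ P' ∈ 𝒞 e)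
    {al : ℕ} (hal : al ≤ n) {x : ℕ → ℂ} (hx : ∀ i < n, x i ∈ Lsp) (h0 : Free M1 n x)
    (h3 : ∃ e, ∃ P ∈ 𝒞 e, P ≠ 0 ∧ aeval x P ∈ Lt) :
    ∃ e, ∃ q ∈ 𝒞 e, q ≠ 0 ∧ aeval x q ∈ Lt ∧ ∃ Q ⊆ Finset.Ico al n,
      (∀ b, b + 1 = n → al ≤ b → pderiv b q ≠ 0 → b ∈ Q) ∧ ∃ ρ : ℕ → ℕ → Qa,
        (∀ b ∈ Finset.Ico al n, b ∉ Q →
          pderiv b q = ∑ c ∈ Q.filter (b < ·), C (ρ b c) * pderiv c q) ∧
        LinearIndependent Qa fun o : Option {i : Fin n // i.1 ∈ Q} =>
          o.elim (1 : ℂ) fun i => aeval x (pderiv i.1.1 q) := by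
  classical
  obtain ⟨e, he⟩ : ∃ e, e = Nat.find h3 := ⟨_, rfl⟩
  obtain ⟨q, hq1, hq0, hq2⟩ := Nat.find_spec h3
  rw [← he] at hq1
  have hmin : ∀ e' < e, ∀ P ∈ 𝒞 e', aeval x P ∈ Lt → P = 0 := by
    intro e' he' P hP hPx
    by_contra hne
    rw [he] at he'
    exact Nat.find_min h3 he' ⟨P, hP, hne, hPx⟩
  clear he
  rcases e with _ | e
  · exact absurd (h00 q hq1) hq0
  have hkey : ∀ (s : Finset ℕ) (t : ℕ → Qa) (c : Qa),
      aeval x (∑ c ∈ s, C (t c) * pderiv c q) = (c : ℂ) →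
        ∑ c ∈ s, C (t c) * pderiv c q = 0 ∧ c = 0 := by
    intro s t c hc
    obtain ⟨L, P', h4, h5, h6⟩ := hD e q hq1 s t
    exact key hx h0 h4 h5 (hmin e (Nat.lt_succ_self e) P' h6) hc
  have hkey1 : ∀ b, aeval x (pderiv b q) = 0 → pderiv b q = 0 := by
    intro b hb
    have h4 : ∑ c ∈ ({b} : Finset ℕ), C ((fun _ => 1 : ℕ → Qa) c) * pderiv c q = pderiv b q := by
      rw [Finset.sum_singleton, C_1, one_mul]
    have h5 := (hkey {b} (fun _ => 1) 0 (by rw [h4]; exact hb)).1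
    rwa [h4] at h5
  obtain ⟨Q, hQ1, hQ2, hQ3, hQ4⟩ := echelon (fun b => aeval x (pderiv b q)) n (n - al) al
    (by omega)
  refine ⟨e + 1, q, hq1, hq0, hq2, Q, hQ1, fun b hb1 hb2 hb3 => ?_, ?_⟩
  · exact hQ4 b hb1 hb2 fun h4 => hb3 (hkey1 b h4)
  -- the coefficients
  have h3 : ∀ b, ∃ ρ : ℕ → Qa, b ∈ Finset.Ico al n → b ∉ Q →
      ∑ c ∈ Q.filter (b < ·), ρ c • aeval x (pderiv c q) = aeval x (pderiv b q) := by
    intro b
    by_cases h4 : b ∈ Finset.Ico al n ∧ b ∉ Q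
    · obtain ⟨ρ, hρ⟩ := hQ3 b h4.1 h4.2
      exact ⟨ρ, fun _ _ => hρ⟩
    · exact ⟨0, fun h5 h6 => absurd ⟨h5, h6⟩ h4⟩
  choose ρ hρ using h3
  refine ⟨ρ, fun b hb hbQ => ?_, ?_⟩
  · have h4 : b ∉ Q.filter (b < ·) := fun h5 => hbQ (Finset.mem_filter.1 h5).1
    have h5 : ∀ c ∈ Q.filter (b < ·), C ((fun i => if i = b then (-1 : Qa) else ρ b i) c) *
        pderiv c q = C (ρ b c) * pderiv c q := by
      intro c hc
      dsimp only
      rw [if_neg]
      rintro rfl
      exact h4 hc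
    have h6 : ∑ c ∈ insert b (Q.filter (b < ·)),
        C ((fun i => if i = b then (-1 : Qa) else ρ b i) c) * pderiv c q =
        - pderiv b q + ∑ c ∈ Q.filter (b < ·), C (ρ b c) * pderiv c q := by
      rw [Finset.sum_insert h4, Finset.sum_congr rfl h5]
      congr 1
      dsimp only
      rw [if_pos rfl, C_neg, C_1]
      ring
    have h7 := (hkey (insert b (Q.filter (b < ·))) (fun i => if i = b then (-1 : Qa) else ρ b i) 0
      (by
        have h8 : (((0 : Qa) : Qa) : ℂ) = 0 := map_zero (algebraMap Qa ℂ)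
        rw [h6, h8, map_add, map_neg, neg_add_eq_zero, map_sum, ← hρ b hb hbQ]
        refine Finset.sum_congr rfl fun c _ => ?_
        rw [map_mul, algHom_C, Algebra.smul_def])).1
    rw [h6, neg_add_eq_zero] at h7
    exact h7
  · have h5 : (fun o : Option {i : Fin n // i.1 ∈ Q} =>
        o.elim (1 : ℂ) fun i => aeval x (pderiv i.1.1 q)) =
        fun o => Option.casesOn' o (1 : ℂ) (fun i : {i : Fin n // i.1 ∈ Q} =>
          aeval x (pderiv i.1.1 q)) := by
      funext o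
      rcases o with _ | i <;> rfl
    rw [h5, linearIndependent_option']
    have h6 : LinearIndependent Qa fun i : {i : Fin n // i.1 ∈ Q} =>
        aeval x (pderiv i.1.1 q) := by
      have h7 : LinearIndependent Qa fun i : (Q : Set ℕ) => aeval x (pderiv i.1 q) := hQ2
      refine h7.comp (fun i : {i : Fin n // i.1 ∈ Q} => (⟨i.1.1, i.2⟩ : (Q : Set ℕ))) ?_
      intro i j hij
      have h8 := congrArg Subtype.val hij
      exact Subtype.ext (Fin.ext h8)
    refine ⟨h6, fun h7 => ?_⟩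
    have h8 : (1 : ℂ) ∈ Submodule.span Qa ((fun c => aeval x (pderiv c q)) '' (Q : Set ℕ)) := by
      refine (Submodule.span_le.2 ?_) h7
      rintro _ ⟨i, rfl⟩
      exact Submodule.subset_span ⟨i.1.1, i.2, rfl⟩
    obtain ⟨t, ht⟩ := (Submodule.mem_span_image_finset_iff_exists_fun' Qa).1 h8
    have h9 := (hkey Q t 1 (by
      rw [map_sum]
      have h10 : (((1 : Qa) : Qa) : ℂ) = 1 := map_one (algebraMap Qa ℂ)
      rw [h10, ← ht]
      refine Finset.sum_congr rfl fun c _ => ?_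
      rw [map_mul, algHom_C, Algebra.smul_def])).2
    exact one_ne_zero h9

end MP60829e.HE
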