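import Pool.Agent.Lib.MP_60829e_nt.HE.FormW

/-! # The data of a point with a relation in the class -/

open MvPolynomial

namespace MP60829e.HE

open MP60829e.ST (Qa Lsp Lt)
open MP60829e.SB
open MP60829e.HD

/-- No nonzero element of the class has its value in the space of the linear forms in
logarithms. -/
def FreeW (M : Set (ℕ →₀ ℕ)) (b0 : ℕ → ℕ) (n : ℕ) (x : ℕ → ℂ) : Prop :=
  ∀ e, ∀ P ∈ Cls M b0 n e, aeval x P ∈ Lt → P = 0

/-- The linear forms can be omitted if their variables do not occur. -/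
theorem cls_repr {M : Set (ℕ →₀ ℕ)} {b0 : ℕ → ℕ} {be e : ℕ} {P : MvPolynomial ℕ Qa}
    (hP : P ∈ Cls M b0 (be + 1) e) : ∃ (d : ℕ) (w : Fin d → ℕ → Qa) (q : MvPolynomial ℕ Qa)
      (g : MvPolynomial (Fin d) Qa), (d = 0 ∨ b0 d ≤ be) ∧ SuppIn M (be + 1) q ∧
      (∀ a ∈ g.support, 2 ≤ a.degree ∧ a.degree ≤ d) ∧
      P = q + aeval (fun i => lf (w i) (be + 1)) g := by
  classical
  obtain ⟨d, w, q, g, h1, h2, h3, h4⟩ := hP
  by_cases hd : b0 d ≤ be
  · exact ⟨d, w, q, g, Or.inr hd, fun a ha => ⟨(h2 a ha).1, (h2 a ha).2.2⟩,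
      fun a ha => ⟨(h3 a ha).1, (h3 a ha).2.2⟩, h4⟩
  · have h5 : ∀ i, lf (w i) (be + 1) = 0 := by
      intro i
      unfold lf
      refine Finset.sum_eq_zero fun b hb => ?_
      rw [h1 i b (by have := Finset.mem_range.1 hb; omega), C_0, zero_mul]
    have h6 : aeval (fun i => lf (w i) (be + 1)) g = 0 := by
      rw [← support_eq_empty, Finset.eq_empty_iff_forall_notMem]
      intro a ha
      obtain ⟨⟨c, hc, hc'⟩, h7⟩ := mem_aeval_lf w g ha
      have h8 := (h3 c hc).1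
      have h9 : aeval (fun i => lf (w i) (be + 1)) g = C (coeff 0 g) := by
        have h10 : (fun i => lf (w i) (be + 1)) = fun _ => 0 := funext h5
        rw [h10]
        exact aeval_zero' _
      rw [h9, mem_support_iff, coeff_C] at ha
      have h10 : a = 0 := by
        by_contra h10
        rw [if_neg (Ne.symm h10)] at ha
        exact ha rfl
      rw [h10, map_zero] at hc'
      omega
    refine ⟨0, fun i => i.elim0, q, 0, Or.inl rfl, fun a ha => ⟨(h2 a ha).1, (h2 a ha).2.2⟩,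
      fun a ha => ?_, ?_⟩
    · rw [support_zero] at ha
      exact absurd ha (Finset.notMem_empty a)
    · rw [h4, h6, map_zero]

theorem structW {M : Set (ℕ →₀ ℕ)} (hM2 : ∀ a ∈ M, 2 ≤ a.degree)
    (hM : ∀ a ∈ M, ∀ b ≤ a, 2 ≤ b.degree → b ∈ M)
    (hfin : ∀ n, {a : ℕ →₀ ℕ | a ∈ M ∧ ∀ b ∈ a.support, b < n}.Finite) (b0 : ℕ → ℕ)
    {al be : ℕ} (hab : al ≤ be) (x : ℕ → ℂ) (hx : ∀ i < be + 1, x i ∈ Lsp)
    (h0 : Free M1 (be + 1) x) (h1 : FreeW M b0 be x) (h2 : ¬ FreeW M b0 (be + 1) x) :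
    ∃ Q ⊆ Finset.Ico al (be + 1), be ∈ Q ∧ ∃ d, (d = 0 ∨ b0 d ≤ be) ∧
      ∃ z : ZW (PR al Q) (SW M (Finset.range al ∪ Q)) (Finset.range al ∪ Q) d → Qa,
        eval (pv z fun i : Fin (be + 1) => x i.1) (GW (PR al Q) (SW M (Finset.range al ∪ Q))
          (Finset.range al ∪ Q) d (be + 1)) ∈ Lt ∧
        LinearIndependent Qa fun o : Option {i : Fin (be + 1) // i.1 ∈ Q} => o.elim (1 : ℂ) fun i =>
          eval (pv z fun i : Fin (be + 1) => x i.1) (pderiv (Sum.inr i.1) (GW (PR al Q)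
            (SW M (Finset.range al ∪ Q)) (Finset.range al ∪ Q) d (be + 1))) := by
  classical
  have h3 : ∃ e, ∃ P ∈ Cls M b0 (be + 1) e, P ≠ 0 ∧ aeval x P ∈ Lt := by
    by_contra hcon
    refine h2 fun e P hP hPx => ?_
    by_contra hne
    exact hcon ⟨e, P, hP, hne, hPx⟩
  obtain ⟨e, q0, hq1, hq0, hq2, Q, hQ1, hQ2, ρ, hρ, hli⟩ := structA
    (𝒞 := fun e => Cls M b0 (be + 1) e) (n := be + 1) (fun P hP => cls_zero hM2 hP)
    (fun e P hP s t => cls_deriv hM2 hM hP s t) (al := al) (by omega) hx h0 h3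
  have hbeQ : be ∈ Q := by
    refine hQ2 be rfl hab fun h4 => hq0 ?_
    exact h1 e q0 (cls_of_pderiv hM2 hq1 h4) hq2
  have hsupp := cls_supp hM2 hq1
  obtain ⟨d, w, q, g, hd, hq, hg, hrep⟩ := cls_repr hq1
  have hW : Finset.range al ∪ Q ⊆ Finset.range (be + 1) := by
    intro i hi
    rcases Finset.mem_union.1 hi with h2 | h2
    · exact Finset.mem_range.2 (by have := Finset.mem_range.1 h2; omega)
    · exact Finset.mem_range.2 (Finset.mem_Ico.1 (hQ1 h2)).2
  obtain ⟨z, hz⟩ : ∃ z : ZW (PR al Q) (SW M (Finset.range al ∪ Q)) (Finset.range al ∪ Q) d → Qa,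
      z = Sum.elim (fun p => ρ p.1.2 p.1.1) (Sum.elim (fun a => coeff a.1 q)
        (Sum.elim (fun p => w p.1 p.2.1) (fun a => coeff a.1 g))) := ⟨_, rfl⟩
  have hval : ∀ y : Fin (be + 1) → ℂ, eval (pv z y) (GW (PR al Q) (SW M (Finset.range al ∪ Q))
      (Finset.range al ∪ Q) d (be + 1)) = aeval (HD.ext y) q0 := by
    intro y
    rw [form3 (fun a ha => (hsupp a ha).2) hQ1 ρ hρ z (fun p => by rw [hz]; rfl) y, hrep]
    exact form2 hfin hq hg hW z (fun a => by rw [hz]; rfl) (fun i b => by rw [hz]; rfl)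
      (fun a => by rw [hz]; rfl) y
  have hx' : ∀ P : MvPolynomial ℕ Qa, (∀ a ∈ P.support, ∀ b ∈ a.support, b < be + 1) →
      aeval (HD.ext fun i : Fin (be + 1) => x i.1) P = aeval x P := by
    intro P hP
    refine aeval_congr (M := Set.univ) (fun a ha => ⟨trivial, hP a ha⟩) fun i hi => ?_
    unfold HD.ext
    rw [dif_pos hi]
  refine ⟨Q, hQ1, hbeQ, d, hd, z, ?_, ?_⟩
  · rw [hval, hx' q0 fun a ha => (hsupp a ha).2.2]
    exact hq2
  · have h5 : (fun o : Option {i : Fin (be + 1) // i.1 ∈ Q} => o.elim (1 : ℂ) fun i =>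
        eval (pv z fun i : Fin (be + 1) => x i.1) (pderiv (Sum.inr i.1) (GW (PR al Q)
            (SW M (Finset.range al ∪ Q)) (Finset.range al ∪ Q) d (be + 1)))) =
        fun o => o.elim (1 : ℂ) fun i => aeval x (pderiv i.1.1 q0) := by
      funext o
      rcases o with _ | i
      · rfl
      · show eval (pv z fun i : Fin (be + 1) => x i.1) (pderiv (Sum.inr i.1) (GW (PR al Q)
            (SW M (Finset.range al ∪ Q)) (Finset.range al ∪ Q) d (be + 1))) =
          aeval x (pderiv i.1.1 q0)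
        rw [pderiv_eq z _ _ hval, hx']
        intro a ha b hb
        refine (hsupp _ (mem_pderiv ha)).2.2 b ?_
        rw [Finsupp.mem_support_iff] at hb ⊢
        rw [Finsupp.add_apply]
        omega
    rw [h5]
    exact hli

end MP60829e.HE
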